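import Mathlib

/-!
# Project ET (elliptico-toric conjecture, MP_8da9ea_nt): packages on lattices and Eisenstein series (Mathlib only)

Every package is a `def S_X : Prop`; deliver `theorem x : S_X` (or `theorem x : S_Y → … → S_X`).
-/

set_option autoImplicit false

open Filter Topology
open scoped PeriodPair

namespace Pool.Agent.P8H10.ET

/-- the Eisenstein series `∑ (m + n τ) ^ (-k)` (the term with `m = n = 0` is `0` in Lean) -/
noncomputable def EG (k : ℕ) (τ : ℂ) : ℂ := ∑' p : ℤ × ℤ, (((p.1 : ℂ) + p.2 * τ) ^ k)⁻¹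

/-- **SUM** (about 150 lines). The lattice `Ω' = ℤ ω₁ + ℤ (u / v) ω₂` is the disjoint union of the classes
`i ω₁ + j (u / v) ω₂ + u Ω` with `0 ≤ i < u`, `0 ≤ j < v`; `i ω₁ + j (u / v) ω₂ = u t`, where
`t = i ω₁ / u + j ω₂ / v`. So `∑ w ^ (-r) = u ^ (-r) ∑_t ∑_(l ∈ Ω) (t + l) ^ (-r)`, and
`∑_l (t + l) ^ (-r) = ∑_l (l - t) ^ (-r)` for even `r` (replace `l` by `-l`). Everything converges
absolutely (`hasSum_sumInvPow`, `r > 2`). The bijection `(range u × range v) × Ω ≃ Ω'` comes from division with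
remainder of the coordinates: `a ω₁ + b (u / v) ω₂` with `a = i + u a'`, `b = j + v b'`. -/
def S_SUM : Prop := ∀ (L L' : PeriodPair) (u v : ℕ), 0 < u → 0 < v → L'.ω₁ = L.ω₁ →
  L'.ω₂ = (u / v : ℂ) * L.ω₂ → ∀ r : ℕ, 2 < r → Even r →
    (u : ℂ) ^ r * L'.G r = ∑ i ∈ Finset.range u, ∑ j ∈ Finset.range v,
      L.sumInvPow ((i : ℂ) * L.ω₁ / u + (j : ℂ) * L.ω₂ / v) r

/-- **WP** (about 100 lines). `∑_l (l - t) ^ (-4) = ℘''(t) / 6` and `∑_l (l - t) ^ (-6) = ℘''''(t) / 120`, by
the power series of `℘` at `t` (`hasFPowerSeriesOnBall_weierstrassP`, `weierstrassPSeries`), and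
`℘'' = 6 ℘ ^ 2 - g₂ / 2`, `℘'''' = 120 ℘ ^ 3 - 18 g₂ ℘ - 12 g₃` from `derivWeierstrassP_sq`
(`℘' ^ 2 = 4 ℘ ^ 3 - g₂ ℘ - g₃`) by differentiation (divide by `℘'`, which has isolated zeros; use
continuity at the zeros; see also `H667R3.hasDerivAt_wp'` in `Pool/Agent/H667R3/W4.lean`). -/
def S_WP : Prop := ∀ (L : PeriodPair) (t : ℂ), t ∉ L.lattice →
  L.sumInvPow t 4 = ℘[L] t ^ 2 - L.g₂ / 12 ∧
  L.sumInvPow t 6 = ℘[L] t ^ 3 - 3 / 20 * L.g₂ * ℘[L] t - L.g₃ / 10

/-- **GE** (about 40 lines). Change of the index set by `PeriodPair.latticeEquiv` (no convergence is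
needed). -/
def S_GE : Prop := ∀ (L : PeriodPair) (k : ℕ), L.G k = (L.ω₁ ^ k)⁻¹ * EG k (L.ω₂ / L.ω₁)

/-- **HOL** (about 120 lines). The Eisenstein series are holomorphic on the upper half plane, and they are even
functions on `ℂ \ ℝ` (for even `k`).

Proof. Locally uniform convergence; compare with Mathlib's `EisensteinSeries` files (summability
bounds `EisensteinSeries.r`, `summand_bound`, `eisensteinSeries_tendstoLocallyUniformly`…), or with
`ModularForm.E`/`E k` and the equality of `EG k` with `2 ζ(k) E_k`, if it is there. Evenness: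
reindex `(m, n) ↦ (-m, n)`. -/
def S_HOL : Prop := ∀ k : ℕ, 3 ≤ k → DifferentiableOn ℂ (EG k) {τ : ℂ | 0 < τ.im} ∧
  (Even k → ∀ τ, EG k (-τ) = EG k τ)

/-- **MOD** (about 60 lines). The transformation rule; only reindexing of `ℤ × ℤ` by an integral matrix of
determinant one (no convergence is needed): `(m + n (a τ + b) / (c τ + d)) (c τ + d) = (m d + n b) + (m c + n a) τ`. -/
def S_MOD : Prop := ∀ (k : ℕ) (a b c d : ℤ), a * d - b * c = 1 → ∀ τ : ℂ, τ.im ≠ 0 →
  EG k ((a * τ + b) / (c * τ + d)) = (c * τ + d) ^ k * EG k τ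

/-- **FUN2** (about 200 lines). The functions `τ`, `EG 4`, `EG 6` are algebraically independent.

Proof. `MOD` with the matrices `(1, n; 0, 1)`: `A (τ + n, EG 4 τ, EG 6 τ) = 0` for all integers `n`, and a
polynomial in one variable with infinitely many zeros vanishes; so `A (T, EG 4 τ, EG 6 τ) = 0` for all `T : ℂ`. It remains
to show that a polynomial `Q` in two variables with `Q (EG 4 τ, EG 6 τ) = 0` for all `τ` is zero. `MOD` with
the matrices `(1, 0; n, 1)`: `Q ((n τ + 1) ^ 4 x, (n τ + 1) ^ 6 y) = 0` with `x = EG 4 τ`, `y = EG 6 τ` for all `n`, so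
`Q (s ^ 4 x, s ^ 6 y) = 0` for all `s`, so each part of `Q` of weight `w` (with weights `4`, `6`) vanishes
at `(x, y)`. Let `∑ c_(ab) X ^ a Y ^ b`, `4 a + 6 b = w`, be such a part, not zero, and `b₀` the smallest `b` which
occurs. Then `EG 6 ^ b₀ * (∑ c_(ab) EG 4 ^ a EG 6 ^ (b - b₀)) = 0` on the upper half plane; the first factor is a nonzero
holomorphic function, so the second factor is zero everywhere (identity theorem; the upper half plane is
connected), and at `τ = i`, where `EG 6 i = 0` (`MOD` for `(0, -1; 1, 0)`: `EG 6 i = i ^ 6 EG 6 i`) and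
`EG 4 i ≠ 0`, it is `c * (EG 4 i) ^ a`. `EG 4 i ≠ 0`: by `GE` it is a multiple of `g₂` of the square lattice, see
`H667R3.g₂_ne_zero` in `Pool/Agent/H667R3/W6.lean`; `EG 6` is not identically zero: by `MOD` and `GE` we have `g₂ = 0` for the
lattice of `ρ = exp (2 π i / 3)`, and `g₂ = g₃ = 0` is impossible (`℘' ^ 2 = 4 ℘ ^ 3` has only constant solutions, or: the
three half periods have three different values of `℘`, zeros of `4 X ^ 3 - g₂ X - g₃`, see `H667R3.g₂_ne_zero`). -/
def S_FUN2 : Prop := ∀ A : MvPolynomial (Fin 3) ℂ,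
  (∀ τ : ℂ, 0 < τ.im → MvPolynomial.aeval ![τ, EG 4 τ, EG 6 τ] A = 0) → A = 0

/-- **FUN1** (about 100 lines). Independence from exponential functions.

Proof. Fix `τ` and apply the hypothesis to `τ + n`, `n : ℕ`: by `MOD`
`∑ i, p i n * exp (c i * τ) * (exp (c i)) ^ n = 0` with `p i n = A i (τ + n, EG 4 τ, EG 6 τ)`, a polynomial in `n`. Since the
numbers `exp (c i)` are nonzero and pairwise different, all the polynomials `p i` are zero (exponential polynomials; by
induction on the sum of the degrees: apply the operator `(shift - exp (c 1))`, or compare the growth; or the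
linear independence of the functions `n ↦ n ^ k * z ^ n` if it is in Mathlib or in the library). So
`A i (τ, EG 4 τ, EG 6 τ) = 0` for all `i`; apply `FUN2`. -/
def S_FUN1 : Prop := ∀ (N : ℕ) (A : Fin N → MvPolynomial (Fin 3) ℂ) (c : Fin N → ℂ),
  (∀ i j, i ≠ j → Complex.exp (c i) ≠ Complex.exp (c j)) →
  (∀ τ : ℂ, 0 < τ.im → ∑ i, MvPolynomial.aeval ![τ, EG 4 τ, EG 6 τ] (A i) * Complex.exp (c i * τ) = 0) →
  ∀ i, A i = 0

end Pool.Agent.P8H10.ET
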