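import Pool.Agent.P8H10.ET.StmA
import Pool.Agent.P8H10.ET.StmC

/-!
# Project ET: packages which combine the others (the inputs are hypotheses)
-/

set_option autoImplicit false

open Filter Topology Pool.Agent.R347.LW
open scoped PeriodPair

namespace Pool.Agent.P8H10.ET

/-- **TOR** (`theorem tor : S_DIV2 → S_CLOS → S_ROOT → S_TOR`, about 120 lines; import `StmB` for `S_DIV2`). Torsion
values of `℘` are algebraic numbers of bounded size.

Proof. If `2 t ∈ L`, then `℘' t = 0` (`H667R3.wp'_half_eq_zero`), so `℘ t` is a zero of the fixed polynomial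
`4 X ^ 3 - g₂ X - g₃` with algebraic coefficients; it is one of at most three fixed algebraic numbers
(`tow h 2 → ∞` for `h → ∞`, so `h` absorbs constants). Otherwise `F (℘ t, g₂, g₃) = 0`, where `F` is from `DIV2`: write
`F (X, g₂, g₃) = ∑ c j X ^ j`, where `c j` is the value at `(g₂, g₃)` of an integral polynomial of size
`tow 3 (m + c)`; so `c j` has bounded size by `CLOS`, and not all `c j` are zero. Apply `ROOT`. The
towers: `tow_tow`, `tow_mono_left`, `tow_mono_right`, `m + c ≤ tow c m` (`le_tow`). -/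
def S_TOR : Prop := ∀ L : PeriodPair, IsAlgebraic ℚ L.g₂ → IsAlgebraic ℚ L.g₃ → ∃ h : ℕ, ∀ m : ℕ,
  2 ≤ m → ∀ t : ℂ, t ∉ L.lattice → (m : ℂ) * t ∈ L.lattice → RB (tow h m) (tow h m) (℘[L] t)

/-- **ALG** (`theorem alg : S_CLOS → S_ROOT → S_TOR → S_SUM → S_WP → S_ALG`, about 150 lines). The Eisenstein series of
the lattices `ℤ ω₁ + ℤ (u / v) ω₂`.

Proof. `SUM` with `r = 4` and `r = 6`: `u ^ r * L'.G r` is `L.G r` (the term `i = j = 0`) plus the sum over the other
pairs `(i, j)` of `sumInvPow t_ij r`; there `t_ij ∉ L` (linear independence of the periods), `u v t_ij ∈ L`,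
`u v ≥ 2`, so `℘ t_ij` has size at most `tow h (u v) ≤ tow h (Y ^ 2)`, and `WP` expresses the
term by `℘ t_ij`, `g₂`, `g₃`. So `60 * u ^ r * L'.G r` is the value of an integral polynomial of small size
at at most `Y ^ 2 + 3` numbers of bounded size (`L.G 4 = g₂ / 60`, `L.G 6 = g₃ / 140`; use a factor `840` or so):
`CLOS`. Then divide: `ROOT` with a linear polynomial. -/
def S_ALG : Prop := ∀ L : PeriodPair, IsAlgebraic ℚ L.g₂ → IsAlgebraic ℚ L.g₃ → ∃ h : ℕ, ∀ Y : ℕ,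
  2 ≤ Y → ∀ (u v : ℕ) (L' : PeriodPair), 1 ≤ u → u ≤ Y → 1 ≤ v → v ≤ Y → L'.ω₁ = L.ω₁ →
    L'.ω₂ = (u / v : ℂ) * L.ω₂ →
    RB (tow h Y) (tow h Y) (L'.G 4) ∧ RB (tow h Y) (tow h Y) (L'.G 6)

/-- **IND** (`theorem ind : S_FUN1 → S_GS → S_IND`, about 150 lines). Independence of the functions
`z τ₀`, `c₄ EG 4 (z τ₀)`, `c₆ EG 6 (z τ₀)`, `exp (z l_k + l'_k)`.

Proof. Put `τ = z τ₀`. Sort the polynomial by the monomials `m` in the last `s` variables: the relation is
`∑_m A_m (τ, EG 4 τ, EG 6 τ) * exp (∑ m_k l'_k) * exp (c_m τ) = 0` with `c_m = (∑ m_k l_k) / τ₀`, `A_m` complex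
polynomials (`c₄`, `c₆` are absorbed: substitution of `c₄ X`). For `m ≠ m'` we have `exp c_m ≠ exp c_m'`: otherwise
`∑ (m_k - m'_k) l_k = 2 π i N τ₀` with an integer `N`; the left side is a logarithm of an algebraic number, so `N = 0` by `GS`, and
`m = m'` because the `l_k` are linearly independent over `ℚ`. `FUN1` (number the monomials in the
support) gives `A_m = 0` for all `m`, so `P = 0`. -/
def S_IND : Prop := ∀ τ₀ : ℂ, IsAlgebraic ℚ τ₀ → τ₀.im ≠ 0 → ∀ (s : ℕ) (l l' : Fin s → ℂ),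
  (∀ k, IsAlgebraic ℚ (Complex.exp (l k))) → LinearIndependent ℚ l → ∀ c₄ c₆ : ℂ, c₄ ≠ 0 → c₆ ≠ 0 →
  ∀ P : MvPolynomial (Fin 3 ⊕ Fin s) ℤ,
  (∀ z : ℂ, 0 < (z * τ₀).im → MvPolynomial.aeval
    (Sum.elim ![z * τ₀, c₄ * EG 4 (z * τ₀), c₆ * EG 6 (z * τ₀)]
      (fun k => Complex.exp (z * l k + l' k))) P = 0) → P = 0

end Pool.Agent.P8H10.ET
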