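import Pool.Agent.P8H10.ET.Fin
import Pool.Agent.P8H4.ET.Clos
import Pool.Agent.P8H4.ET.Exb
import Pool.Agent.P8H1.ET.Hol
import Pool.Agent.P8H7.ET.Mod
import Pool.Agent.P8H20.ET.Sum
import Pool.Agent.P8H20.ET.Wp
import Pool.Agent.P8H71.ET.Ind
import Pool.Agent.P8H80.ET.Div
import Pool.Agent.P8H65.ET.Fun2
import Pool.Agent.P8H65.ET.Fun1
import Pool.Agent.P8H61.ET.Gs
import Pool.Agent.P8H61.ET.Root
import Pool.Agent.P8H22.ET.Tra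
import Pool.Agent.P8H59.ET.Tor
import Pool.Agent.P8H59.ET.Alg

/-!
# Project ET: all packages
-/

set_option autoImplicit false

open Filter Topology Pool.Agent.R347.LW Pool.Agent.P8H10.KM
open scoped PeriodPair

namespace Pool.Agent.P8H10.ET

theorem ind' : S_IND :=
  Pool.Agent.P8H71.ET.ind (Pool.Agent.P8H65.ET.fun1 Pool.Agent.P8H7.ET.mod
    (Pool.Agent.P8H65.ET.fun2 Pool.Agent.P8H7.ET.mod Pool.Agent.P8H1.ET.ge
      Pool.Agent.P8H1.ET.hol)) Pool.Agent.P8H61.ET.gs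

theorem tor' : S_TOR :=
  Pool.Agent.P8H59.ET.tor (Pool.Agent.P8H80.ET.div2 Pool.Agent.P8H80.ET.div1)
    Pool.Agent.P8H4.ET.clos Pool.Agent.P8H61.ET.root

theorem alg' : S_ALG :=
  Pool.Agent.P8H59.ET.alg Pool.Agent.P8H4.ET.clos Pool.Agent.P8H61.ET.root tor'
    Pool.Agent.P8H20.ET.sum Pool.Agent.P8H20.ET.wp

theorem all {q : ℕ → ℕ} (hq : ∀ i, 2 ≤ q i) (L : PeriodPair)
    (h2 : IsAlgebraic ℚ L.g₂) (h3 : IsAlgebraic ℚ L.g₃) (hτ : IsAlgebraic ℚ (L.ω₂ / L.ω₁))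
    {s : ℕ} (l l' : Fin s → ℂ) (hl : ∀ k, IsAlgebraic ℚ (Complex.exp (l k)))
    (hl' : ∀ k, IsAlgebraic ℚ (Complex.exp (l' k))) (hli : LinearIndependent ℚ l)
    (x : ℝ) (hx : RAppr q x) (hirr : Irrational x) (L' : PeriodPair) (hω₁ : L'.ω₁ = L.ω₁)
    (hω₂ : L'.ω₂ = x * L.ω₂) :
    AlgebraicIndependent ℚ (fun o : Option (Fin 3 ⊕ Fin s) => o.elim (2 * (Real.pi : ℂ) * Complex.I)
      (Sum.elim ![L'.ω₂ / L'.ω₁, L'.g₂, L'.g₃] fun k => Complex.exp (x * l k + l' k))) ∧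
    (s : Cardinal) + 4 ≤ Algebra.trdeg ℚ
      (IntermediateField.adjoin ℚ (gens L' fun k => x * l k + l' k)) :=
  fin (Pool.Agent.P8H22.ET.tra Pool.Agent.P8H4.ET.clos) Pool.Agent.P8H4.ET.clos
    (Pool.Agent.P8H4.ET.exb Pool.Agent.P8H4.ET.clos) alg' Pool.Agent.P8H1.ET.ge
    Pool.Agent.P8H1.ET.hol ind' hq L h2 h3 hτ l l' hl hl' hli x hx hirr L' hω₁ hω₂

end Pool.Agent.P8H10.ET
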