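import Pool.Agent.P8H10.ET.Main2
import Pool.Agent.P8H10.ET.All
import Pool.Agent.P8H22.ET.Tra2
import Pool.Agent.P8H62.ET.Alg2
import Pool.Agent.P8H88.ET.Sum2

/-!
# Project ET: two parameters
-/

set_option autoImplicit false

open Filter Topology Pool.Agent.R347.LW Pool.Agent.P8H10.KM
open scoped PeriodPair

namespace Pool.Agent.P8H10.ET

variable {q : ℕ → ℕ}

theorem all2 (hq : ∀ i, 2 ≤ q i) (L : PeriodPair)
    (h2 : IsAlgebraic ℚ L.g₂) (h3 : IsAlgebraic ℚ L.g₃) (hτ : IsAlgebraic ℚ (L.ω₂ / L.ω₁))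
    (a b : ℝ) (ha : RAppr q a) (hb : RAppr q b) (hirr : Irrational a ∨ Irrational b)
    (L' : PeriodPair) (hω₁ : L'.ω₁ = L.ω₁) (hω₂ : L'.ω₂ = a * L.ω₁ + b * L.ω₂) :
    AlgebraicIndependent ℚ ![2 * (Real.pi : ℂ) * Complex.I, L'.ω₂ / L'.ω₁, L'.g₂, L'.g₃] ∧
    4 ≤ Algebra.trdeg ℚ (IntermediateField.adjoin ℚ
      ({L'.g₂, L'.g₃, L'.ω₁, L'.ω₂, H667R3.eta L' L'.ω₁, H667R3.eta L' L'.ω₂} : Set ℂ)) := by
  have hω := ω₁_ne L
  have hb0 : b ≠ 0 := by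
    intro hb0
    have h := LinearIndependent.pair_iff.1 L'.indep a (-1) (by
      rw [hω₁, hω₂, hb0]
      simp only [Complex.real_smul]
      push_cast
      ring)
    norm_num at h
  obtain ⟨hap, hind⟩ := main2 (Pool.Agent.P8H22.ET.tra2 Pool.Agent.P8H4.ET.clos)
    Pool.Agent.P8H4.ET.clos (Pool.Agent.P8H62.ET.alg2 Pool.Agent.P8H4.ET.clos
      Pool.Agent.P8H61.ET.root tor' Pool.Agent.P8H88.ET.sum2 Pool.Agent.P8H20.ET.wp)
    Pool.Agent.P8H1.ET.ge Pool.Agent.P8H1.ET.hol ind' hq L h2 h3 hτ a b ha hb hb0 hirr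
  have hτ' : (a : ℂ) + b * (L.ω₂ / L.ω₁) = L'.ω₂ / L'.ω₁ := by
    rw [hω₁, hω₂]
    field_simp
  have hG' : ∀ k, (L.ω₁ ^ k)⁻¹ * EG k ((a : ℂ) + b * (L.ω₂ / L.ω₁)) = L'.G k := by
    intro k
    rw [Pool.Agent.P8H1.ET.ge L' k, hτ', hω₁]
  set fm : Fin 3 ⊕ Fin 0 → ℂ := Sum.elim ![L'.ω₂ / L'.ω₁, L'.g₂, L'.g₃] (fun k => k.elim0) with hfm
  have hsc4 : (fun i => (((Sum.elim ![1, 60, 140] fun _ => 1 : Fin 3 ⊕ Fin 0 → ℚ) i : ℚ) : ℂ) *
      fam2 L (a + b * (L.ω₂ / L.ω₁)) i) = fm := by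
    funext i
    rcases i with i | k
    · fin_cases i
      · simp [fam2, hfm, ← hτ']
      · change ((60 : ℚ) : ℂ) * ((L.ω₁ ^ 4)⁻¹ * EG 4 ((a : ℂ) + b * (L.ω₂ / L.ω₁))) = 60 * L'.G 4
        rw [hG' 4]
        norm_num
      · change ((140 : ℚ) : ℂ) * ((L.ω₁ ^ 6)⁻¹ * EG 6 ((a : ℂ) + b * (L.ω₂ / L.ω₁))) = 140 * L'.G 6
        rw [hG' 6]
        norm_num
    · exact k.elim0
  have hsc : AlgebraicIndependent ℚ fm := by
    rw [← hsc4]
    refine alg_ind_scaleQ _ _ ?_ hind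
    rintro (i | k)
    · fin_cases i <;> simp
    · exact k.elim0
  have happ : ∀ i, Appr q (fm i) := by
    intro i
    have h5 := congrFun hsc4 i
    rw [← h5]
    exact Appr.mul hq (Appr.rat hq _) (hap i)
  have h5 := with_pi hq _ happ hsc
  -- reindexing
  have h8 : AlgebraicIndependent ℚ
      ![2 * (Real.pi : ℂ) * Complex.I, L'.ω₂ / L'.ω₁, L'.g₂, L'.g₃] := by
    let f : Fin 4 → Option (Fin 3 ⊕ Fin 0) :=
      ![none, some (Sum.inl 0), some (Sum.inl 1), some (Sum.inl 2)]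
    have hf : Function.Injective f := by
      intro i j hij
      fin_cases i <;> fin_cases j <;> simp_all [f]
    have h8 := h5.comp f hf
    refine (funext fun i => ?_ : _ = ![2 * (Real.pi : ℂ) * Complex.I, L'.ω₂ / L'.ω₁, L'.g₂, L'.g₃]) ▸ h8
    fin_cases i <;> rfl
  refine ⟨h8, ?_⟩
  set F := IntermediateField.adjoin ℚ
    ({L'.g₂, L'.g₃, L'.ω₁, L'.ω₂, H667R3.eta L' L'.ω₁, H667R3.eta L' L'.ω₂} : Set ℂ) with hF
  have hmem : ∀ z ∈ ({L'.g₂, L'.g₃, L'.ω₁, L'.ω₂, H667R3.eta L' L'.ω₁, H667R3.eta L' L'.ω₂} :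
    Set ℂ), z ∈ F := fun z hz => IntermediateField.subset_adjoin _ _ hz
  have h6 := le_trdeg (F := F) _ (fun i => by
      fin_cases i
      · change 2 * (Real.pi : ℂ) * Complex.I ∈ F
        obtain ⟨n, hn, hn2⟩ := legendre L'
        have h7 : 2 * (Real.pi : ℂ) * Complex.I =
            (L'.ω₁ * H667R3.eta L' L'.ω₂ - L'.ω₂ * H667R3.eta L' L'.ω₁) / (n : ℂ) := by
          rw [hn2, mul_div_cancel_left₀]
          exact_mod_cast hn
        rw [h7]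
        refine div_mem (sub_mem (mul_mem (hmem _ ?_) (hmem _ ?_)) (mul_mem (hmem _ ?_) (hmem _ ?_)))
          (intCast_mem _ n)
        all_goals simp
      · exact div_mem (hmem _ (by simp)) (hmem _ (by simp))
      · exact hmem L'.g₂ (by simp)
      · exact hmem L'.g₃ (by simp)) h8
  refine le_trans (le_of_eq ?_) h6
  simp

end Pool.Agent.P8H10.ET
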