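import Pool.Agent.W245.EB.CMz

/-!
# Project ET: Legendre's relation, up to a rational factor (copied from TH813/EKBase, lighter imports)
-/

set_option autoImplicit false

open scoped PeriodPair

noncomputable section

namespace Pool.Agent.P8H10.ET

open H667R3 Pool.Agent.W245.EB

/-- the Legendre determinant is not zero -/
theorem leg_ne (L : PeriodPair) : L.ω₁ * eta L L.ω₂ - L.ω₂ * eta L L.ω₁ ≠ 0 := by
  intro h
  obtain ⟨w, hw, hne⟩ := exists_quasi_period L (s := L.ω₁) (ρ := -eta L L.ω₁)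
    (Or.inl (ω₁_ne_zero L))
  apply hne
  obtain ⟨m, n, rfl⟩ := PeriodPair.mem_lattice.1 hw
  have m1 : (m : ℂ) * L.ω₁ ∈ L.lattice := by
    have := L.lattice.smul_mem m L.ω₁_mem_lattice
    rwa [zsmul_eq_mul] at this
  have m2 : (n : ℂ) * L.ω₂ ∈ L.lattice := by
    have := L.lattice.smul_mem n L.ω₂_mem_lattice
    rwa [zsmul_eq_mul] at this
  rw [eta_add L m1 m2, eta_zsmul L L.ω₁_mem_lattice, eta_zsmul L L.ω₂_mem_lattice]
  linear_combination (n : ℂ) * h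

theorem legendre (L : PeriodPair) : ∃ n : ℤ, n ≠ 0 ∧
    L.ω₁ * eta L L.ω₂ - L.ω₂ * eta L L.ω₁ = n * (2 * Real.pi * Complex.I) := by
  obtain ⟨C₁, hC₁, h₁⟩ := sigma_add_coe L L.ω₁_mem_lattice
  obtain ⟨C₂, hC₂, h₂⟩ := sigma_add_coe L L.ω₂_mem_lattice
  obtain ⟨z, hz⟩ : ∃ z, z ∉ L.lattice := ⟨_, L.ω₁_div_two_notMem_lattice⟩
  have hs := sigma_ne_zero L hz
  have e1 := h₁ (z + L.ω₂)
  rw [h₂ z] at e1
  have e2 := h₂ (z + L.ω₁)
  rw [h₁ z] at e2
  have e3 : z + L.ω₂ + L.ω₁ = z + L.ω₁ + L.ω₂ := by ring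
  rw [e3, e2] at e1
  have e4 : Complex.exp (eta L L.ω₂ * (z + L.ω₁)) * Complex.exp (eta L L.ω₁ * z) =
      Complex.exp (eta L L.ω₁ * (z + L.ω₂)) * Complex.exp (eta L L.ω₂ * z) := by
    apply mul_left_cancel₀ (mul_ne_zero (mul_ne_zero hC₁ hC₂) hs)
    linear_combination e1
  rw [← Complex.exp_add, ← Complex.exp_add, Complex.exp_eq_exp_iff_exists_int] at e4
  obtain ⟨n, hn⟩ := e4
  have e5 : L.ω₁ * eta L L.ω₂ - L.ω₂ * eta L L.ω₁ = n * (2 * Real.pi * Complex.I) := by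
    linear_combination hn
  refine ⟨n, ?_, e5⟩
  rintro rfl
  apply leg_ne L
  rw [e5, Int.cast_zero, zero_mul]

end Pool.Agent.P8H10.ET
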