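import Pool.Agent.P8H10.ET.StmD
import Pool.Agent.P8H10.ET.Leg

/-!
# Project ET, third theorem: one point of the curve (`n = 1`)

`Ω = ℤ ω₁ + ℤ ω₂` CM with algebraic invariants, `Ω' = ℤ ω₁ + ℤ x ω₂`, `p ∈ ℚ ω₁ + ℚ ω₂`, not in `ℚ ω₁`. New numbers: `℘(p; Ω')` and
`(x η₁(Ω') - η₁(Ω)) / ω₁` (the quasi-periods are `H667R3.eta`). Every package is a `def S_X : Prop`; deliver
`theorem x : S_X` (or `S_Y → … → S_X`).
-/

set_option autoImplicit false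

open Filter Topology Pool.Agent.R347.LW
open scoped PeriodPair

namespace Pool.Agent.P8H10.ET

/-- `℘` of the lattice `ℤ + ℤ τ` -/
noncomputable def EP (z τ : ℂ) : ℂ :=
  ∑' p : ℤ × ℤ, (1 / (z - ((p.1 : ℂ) + p.2 * τ)) ^ 2 - 1 / ((p.1 : ℂ) + p.2 * τ) ^ 2)

/-- `ζ` of the lattice `ℤ + ℤ τ` -/
noncomputable def EZ (z τ : ℂ) : ℂ :=
  ∑' p : ℤ × ℤ, (1 / (z - ((p.1 : ℂ) + p.2 * τ)) + 1 / ((p.1 : ℂ) + p.2 * τ) +
    z / ((p.1 : ℂ) + p.2 * τ) ^ 2)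

/-- the quasi-period of `1` for the lattice `ℤ + ℤ τ` -/
noncomputable def EH (τ : ℂ) : ℂ := EZ (1 / 2 + 1) τ - EZ (1 / 2) τ

/-- `z` is not in the lattice `ℤ + ℤ τ` -/
def Off (z τ : ℂ) : Prop := ∀ m n : ℤ, z ≠ m + n * τ

/-- **GP** (about 60 lines). Change of the index set (`PeriodPair.latticeEquiv`; no convergence), as in
`Pool.Agent.P8H1.ET.ge`; the last two: `(m, n) ↦ (m, -n)`. (`PeriodPair.weierstrassP` is
`∑ (1 / (z - l) ^ 2 - 1 / l ^ 2)`, `H667R3.zeta` is in `Pool/Agent/H667R3/W1.lean`, `H667R3.eta` in `W3.lean`.) -/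
def S_GP : Prop :=
  (∀ (L : PeriodPair) (z : ℂ), ℘[L] z = (L.ω₁ ^ 2)⁻¹ * EP (z / L.ω₁) (L.ω₂ / L.ω₁)) ∧
  (∀ L : PeriodPair, H667R3.eta L L.ω₁ = (L.ω₁)⁻¹ * EH (L.ω₂ / L.ω₁)) ∧
  (∀ z τ : ℂ, EP z (-τ) = EP z τ) ∧ ∀ τ : ℂ, EH (-τ) = EH τ

/-- **ANE** (about 150 lines). For fixed `z` the functions `EP z τ`, `EZ z τ` are analytic in `τ` as long as
`z` is not in the lattice.

Proof. The terms are `O(‖m + n τ‖ ^ (-3))`, uniformly for `τ` in a compact subset of `ℂ \ ℝ`, as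
`1 / (z - w) ^ 2 - 1 / w ^ 2 = z (2 w - z) / (w ^ 2 (z - w) ^ 2)` and `1 / (z - w) + 1 / w + z / w ^ 2 = z ^ 2 / (w ^ 2 (z - w))`, for
`‖w‖ ≥ 2 ‖z‖`; the other terms are finitely many (uniformly in the compact set) and analytic. See the proof of
`Pool.Agent.P8H1.ET.hol`; `Off z τ` is an open condition on `τ`. -/
def S_ANE : Prop := ∀ z τ : ℂ, τ.im ≠ 0 → Off z τ →
  AnalyticAt ℂ (fun τ => EP z τ) τ ∧ AnalyticAt ℂ (fun τ => EZ z τ) τ

/-- **PRE** (about 80 lines). The upper half plane without the countable set of the `τ` with `z ∈ ℤ + ℤ τ` is connected.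

Proof. The exceptional set is countable. A connected open subset of the plane without a countable subset
is path connected: two points `a`, `b` of the half plane (convex) are joined by the two segments over the points
`c + t i (b - a)`, `c = (a + b) / 2`, with small real `t`; for all but countably many `t` these two segments avoid the countable
set. (Compare `Set.Countable.isPathConnected_compl_of_one_lt_rank` in Mathlib and its proof.) -/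
def S_PRE : Prop := ∀ z : ℂ, IsPreconnected {τ : ℂ | 0 < τ.im ∧ Off z τ}

/-- **TRM** (about 100 lines). Transformation of `EP` and `EH`.

Proof. Only reindexing for `EP`. For `EH`: `EH τ = eta L 1` for the period pair `L = (1, τ)` (as in `GP`), and
`eta` is additive on the lattice and depends only on the lattice (`H667R3.zeta_add_coe`, `eta_add`, `eta_zsmul` in
`Pool/Agent/H667R3/W3.lean`); so `EH (τ + 1) = EH τ`. With `s = τ + d` the lattice of `-1 / s` is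
`s⁻¹ (ℤ + ℤ τ)`, so `EH (-1 / s) = s * eta L s = s * (eta L τ + d * eta L 1)`, and `eta L τ - τ * eta L 1 = 2 π i n`,
`n ≠ 0` by `legendre` (`Pool/Agent/P8H10/ET/Leg.lean`). So `c₀ = -2 π i n`. -/
def S_TRM : Prop :=
  (∀ z τ : ℂ, EP z (τ + 1) = EP z τ) ∧ (∀ τ : ℂ, 0 < τ.im → EH (τ + 1) = EH τ) ∧
  (∀ (z τ : ℂ) (d : ℤ), 0 < τ.im → EP z (-1 / (τ + d)) = (τ + d) ^ 2 * EP ((τ + d) * z) τ) ∧
  ∀ τ : ℂ, 0 < τ.im → ∃ c₀ : ℂ, c₀ ≠ 0 ∧ ∀ d : ℤ,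
    EH (-1 / (τ + d)) = (τ + d) ^ 2 * EH τ - c₀ * (τ + d)

/-- **LIMX** (about 120 lines). If `z` is not a torsion point modulo `ℤ + ℤ τ`, then the sequence
`℘ ((τ + d) z)`, `d → ∞`, has infinitely many limit points.

Proof. `ℂ / (ℤ + ℤ τ)` is compact: there are `d_j → ∞` and lattice points `w_j` with `(τ + d_j) z - w_j → v`. Then
`(τ + d_j + m) z - w_j → v + m z` for every natural number `m`. The points `v + m z` are pairwise different modulo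
the lattice, so all but at most one of them are not in the lattice and there `EP (·) τ` is continuous and
periodic (`GP` with the period pair `(1, τ)`), so `EP (v + m z) τ` is a limit point. As `℘ a = ℘ b` only for
`a = ± b` modulo the lattice (`H667R3.wp_eq_iff` in `W4.lean`), every value occurs for at most two `m`. -/
def S_LIMX : Prop := ∀ τ z : ℂ, 0 < τ.im → (∀ N : ℤ, N ≠ 0 → Off (N * z) τ) →
  Set.Infinite {X : ℂ | ∃ φ : ℕ → ℕ, StrictMono φ ∧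
    Tendsto (fun j => EP ((τ + φ j) * z) τ) atTop (𝓝 X)}

/-- **FUN4** (`theorem fun4 : S_TRM → S_LIMX → S_MOD → S_FUN2 → S_ANE → S_HOL → S_FUN4`, about 200 lines).
Independence of `EG 4`, `EG 6`, `EH`, `EP z`.

Proof. Give the variables the weights `4, 6, 2, 2`. Let `Q ≠ 0`, let `w` be the largest weight of a monomial of `Q`
and `Q_w` the part of weight `w`. Let `τ` be such that `z` is not torsion modulo `ℤ + ℤ τ` (all but countably many `τ`, as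
`z` is not real). The relation at `-1 / (τ + d)`, `s = τ + d` (`TRM`, `MOD` with `(0, -1; 1, d)`):
`Q (s ^ 4 e₄, s ^ 6 e₆, s ^ 2 h - c₀ s, s ^ 2 X_d) = 0`, `X_d = EP (s z) τ`. Divide by `s ^ w`, `d = φ j → ∞`:
`Q_w (e₄, e₆, h, X) = 0` for all limit points `X` of `LIMX`, so for all `X : ℂ`. So every coefficient `R` of `Q_w` as a
polynomial in the last variable, homogeneous in the weights `4, 6, 2`, satisfies `R (EG 4, EG 6, EH) = 0` for all these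
`τ`, which are dense, so for all `τ` (continuity: `HOL`, `ANE` for `EH`). Then the relation at `-1 / (τ + d)` is
`s ^ w' R (e₄, e₆, h - c₀ / s) = 0` for all `d`; `c₀ ≠ 0`, so `R (e₄, e₆, Y) = 0` for all `Y`, so all coefficients of `R` as
a polynomial in the last variable vanish at `(EG 4 τ, EG 6 τ)` for all `τ`, so they are zero by `FUN2`. -/
def S_FUN4 : Prop := ∀ z : ℂ, z.im ≠ 0 → ∀ Q : MvPolynomial (Fin 4) ℂ,
  (∀ τ : ℂ, 0 < τ.im → Off z τ → MvPolynomial.aeval ![EG 4 τ, EG 6 τ, EH τ, EP z τ] Q = 0) → Q = 0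

/-- **FUN3** (`theorem fun3 : S_TRM → S_MOD → S_FUN4 → S_FUN3`, about 100 lines; adaptation of
`Pool.Agent.P8H65.ET.fun1`). The functions `EG 4`, `EG 6`, `EH`, `EP z` are invariant under
`τ ↦ τ + n`. As in `FUN1` the relation gives `A i (τ + n, e₄, e₆, h, f) = 0` for all `i` and `n`, so
`A i (T, e₄, e₆, h, f) = 0` for all `T : ℂ`; so the coefficients of `A i` as a polynomial in `T` vanish by `FUN4`. -/
def S_FUN3 : Prop := ∀ z : ℂ, z.im ≠ 0 → ∀ (N : ℕ) (A : Fin N → MvPolynomial (Fin 5) ℂ) (c : Fin N → ℂ),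
  (∀ i j, i ≠ j → Complex.exp (c i) ≠ Complex.exp (c j)) →
  (∀ τ : ℂ, 0 < τ.im → Off z τ → ∑ i, MvPolynomial.aeval ![τ, EG 4 τ, EG 6 τ, EH τ, EP z τ] (A i) *
    Complex.exp (c i * τ) = 0) → ∀ i, A i = 0

/-- **IND3** (`theorem ind3 : S_FUN3 → S_GS → S_IND3`, about 120 lines; adaptation of
`Pool.Agent.P8H71.ET.ind`). Here the fourth function is `c₂ z EH (z τ₀) - κ = (c₂ / τ₀) τ EH τ - κ`, a polynomial in `τ` and
`EH τ`; the substitution `X₃ ↦ (c₂ / τ₀) X₀ X₃ - κ`, `X₁ ↦ c₄ X₁`, … is an injective homomorphism of polynomial rings. -/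
def S_IND3 : Prop := ∀ τ₀ : ℂ, IsAlgebraic ℚ τ₀ → τ₀.im ≠ 0 → ∀ z₀ : ℂ, z₀.im ≠ 0 →
  ∀ (s : ℕ) (l l' : Fin s → ℂ), (∀ k, IsAlgebraic ℚ (Complex.exp (l k))) → LinearIndependent ℚ l →
  ∀ c₄ c₆ c₂ c₃ κ : ℂ, c₄ ≠ 0 → c₆ ≠ 0 → c₂ ≠ 0 → c₃ ≠ 0 →
  ∀ P : MvPolynomial (Fin 5 ⊕ Fin s) ℤ,
  (∀ z : ℂ, 0 < (z * τ₀).im → Off z₀ (z * τ₀) → MvPolynomial.aeval
    (Sum.elim ![z * τ₀, c₄ * EG 4 (z * τ₀), c₆ * EG 6 (z * τ₀), c₂ * z * EH (z * τ₀) - κ,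
      c₃ * EP z₀ (z * τ₀)] (fun k => Complex.exp (z * l k + l' k))) P = 0) → P = 0

/-- **SUPP** (about 120 lines; compare `Pool.Agent.P8H20.ET.sum`). `℘` of the lattice
`Ω' = ℤ ω₁ + ℤ (u / v) ω₂`, the disjoint union of the classes `u (t_ij + Ω)`, `t_ij = i ω₁ / u + j ω₂ / v`:
`1 / (z - w) ^ 2 - 1 / w ^ 2 = u ^ (-2) (1 / (z / u - t - l) ^ 2 - 1 / (t + l) ^ 2)` for `w = u (t + l)`, and
`∑_l (1 / (y - t - l) ^ 2 - 1 / l ^ 2) = ℘ (y - t)`, `∑_l (1 / (t + l) ^ 2 - 1 / l ^ 2) = ℘ (- t) = ℘ t`. (In Mathlib `℘ 0 = 0`, so that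
the term `i = j = 0` of the second sum is zero, as it must be.) -/
def S_SUPP : Prop := ∀ (L L' : PeriodPair) (u v : ℕ), 0 < u → 0 < v → L'.ω₁ = L.ω₁ →
  L'.ω₂ = (u / v : ℂ) * L.ω₂ → ∀ z : ℂ, z ∉ L'.lattice →
    (u : ℂ) ^ 2 * ℘[L'] z = ∑ i ∈ Finset.range u, ∑ j ∈ Finset.range v,
      (℘[L] (z / u - ((i : ℂ) * L.ω₁ / u + (j : ℂ) * L.ω₂ / v)) -
        ℘[L] ((i : ℂ) * L.ω₁ / u + (j : ℂ) * L.ω₂ / v))

/-- **SUPE** (`theorem supe : S_SUPP → S_SUPE`, about 120 lines). The quasi-period of `ω₁` for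
`Ω' = ℤ ω₁ + ℤ (u / v) ω₂`.

Proof. The function `ζ' z - u⁻¹ ∑ ζ (z / u - t_ij) - u ^ (-2) (∑ ℘ t_ij) z` (`ζ'` for `Ω'`, `ζ` for `Ω`) has derivative zero outside
of `Ω'` by `SUPP` (`H667R3.hasDerivAt_zeta`), and the complement of a lattice is connected
(`H667R3.isPreconnected_compl`), so it is constant. Compare its values at `z` and `z + u ω₁`:
`u η'(ω₁) = u⁻¹ (u v) η(ω₁) + u ^ (-2) (∑ ℘ t_ij) u ω₁` (`zeta_add_coe`, `eta_nsmul`). -/
def S_SUPE : Prop := ∀ (L L' : PeriodPair) (u v : ℕ), 0 < u → 0 < v → L'.ω₁ = L.ω₁ →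
  L'.ω₂ = (u / v : ℂ) * L.ω₂ →
    (u : ℂ) * H667R3.eta L' L'.ω₁ = v * H667R3.eta L L.ω₁ + (u : ℂ)⁻¹ * L.ω₁ *
      ∑ i ∈ Finset.range u, ∑ j ∈ Finset.range v, ℘[L] ((i : ℂ) * L.ω₁ / u + (j : ℂ) * L.ω₂ / v)

/-- **SIZ** (`theorem siz : S_CLOS → S_ROOT → S_TOR → S_SUPP → S_SUPE → S_SIZ`, about 120 lines; adaptation of
`Pool.Agent.P8H59.ET.alg`). The sizes of `℘(p; Ω')`, `p = a ω₁ + b ω₂` with rational `a`, `b`, and of the
quasi-period. The points `p / u - t_ij` are not in `Ω` (as `p ∉ Ω'`) and are torsion points of order at most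
`D u v`, where `D` is a common denominator of `a` and `b`. By `SUPE`
`((u / v) η' - η) / ω₁ = (∑ ℘ t_ij) / (u v)`. -/
def S_SIZ : Prop := ∀ L : PeriodPair, IsAlgebraic ℚ L.g₂ → IsAlgebraic ℚ L.g₃ → ∀ a b : ℚ, ∃ h : ℕ,
  ∀ Y : ℕ, 2 ≤ Y → ∀ (u v : ℕ) (L' : PeriodPair), 1 ≤ u → u ≤ Y → 1 ≤ v → v ≤ Y → L'.ω₁ = L.ω₁ →
    L'.ω₂ = (u / v : ℂ) * L.ω₂ → (a * L.ω₁ + b * L.ω₂ : ℂ) ∉ L'.lattice →
    RB (tow h Y) (tow h Y) (℘[L'] (a * L.ω₁ + b * L.ω₂)) ∧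
    RB (tow h Y) (tow h Y) (((u / v : ℂ) * H667R3.eta L' L'.ω₁ - H667R3.eta L L.ω₁) / L.ω₁)

/-- **CMQ** (about 100 lines). The quasi-period of a CM lattice with algebraic invariants.

Proof. The action of `α` on `ζ` is in `Pool/Agent/W245/EB/CMz.lean`, `CMz2.lean`, and `eta_mult` in
`Pool/Agent/TH813/Ell0K.lean`: `α η(α w) = N η(w) - κ w` for all `w ∈ Ω`, where `N = |ker α|` and `κ` is a sum of values of `℘` at
torsion points, so algebraic (`torsion_EL` in `Psi.lean`). For `w = ω₁`, `α ω₁ = a ω₁ + b ω₂`, `b ≠ 0`: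
`α (a η₁ + b η₂) = N η₁ - κ ω₁`. With Legendre's relation `ω₁ η₂ - ω₂ η₁ = 2 π i n`, `n ≠ 0`:
`(N - α a - α b τ) ω₁ η₁ = κ ω₁ ^ 2 + 2 π i n α b`, `τ = ω₂ / ω₁`, and `α a + α b τ = α ^ 2`; so
`(N - α ^ 2) ω₁ η₁ = κ ω₁ ^ 2 + 2 π i n α b`. Here `N = |α| ^ 2 ≠ α ^ 2`, as `α` is not real (the lattice `α Ω` has index
`|α| ^ 2` in `Ω`); if `α` is purely imaginary this is clear from `N > 0 > α ^ 2`, and in general we may
first replace `α` by `2 α - T`, `T = a + d` the trace (`α ^ 2 = T α - Δ`), which is purely imaginary. -/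
def S_CMQ : Prop := ∀ L : PeriodPair, IsAlgebraic ℚ L.g₂ → IsAlgebraic ℚ L.g₃ →
  (∃ α : ℂ, α.im ≠ 0 ∧ ∀ ω ∈ L.lattice, α * ω ∈ L.lattice) → ∃ a₁ a₂ : ℂ, IsAlgebraic ℚ a₁ ∧
    IsAlgebraic ℚ a₂ ∧ L.ω₁ * H667R3.eta L L.ω₁ = a₁ * (2 * Real.pi * Complex.I) + a₂ * L.ω₁ ^ 2

end Pool.Agent.P8H10.ET
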