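import Pool.Agent.P8H10.ET.Fin3
import Pool.Agent.P8H10.ET.All
import Pool.Agent.P8H37.ET.Fun3
import Pool.Agent.P8H65.ET.Supe
import Pool.Agent.P8H65.ET.Limx
import Pool.Agent.P8H71.ET.Ane
import Pool.Agent.P8H71.ET.Ind3
import Pool.Agent.P8H75.ET.Gp
import Pool.Agent.P8H57.ET.Trm
import Pool.Agent.P8H57.ET.Pre
import Pool.Agent.P8H4.ET.Siz
import Pool.Agent.P8H4.ET.Cmq
import Pool.Agent.P8H76.ET.Supp
import Pool.Agent.P8H65.ET.Fun4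

/-!
# Project ET: all packages, one point of the curve
-/

set_option autoImplicit false

open Filter Topology Pool.Agent.R347.LW Pool.Agent.P8H10.KM
open scoped PeriodPair

namespace Pool.Agent.P8H10.ET

theorem fun2' : S_FUN2 :=
  Pool.Agent.P8H65.ET.fun2 Pool.Agent.P8H7.ET.mod Pool.Agent.P8H1.ET.ge Pool.Agent.P8H1.ET.hol

theorem fun4' : S_FUN4 :=
  Pool.Agent.P8H65.ET.fun4 Pool.Agent.P8H57.ET.trm Pool.Agent.P8H65.ET.limx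
    Pool.Agent.P8H7.ET.mod fun2' Pool.Agent.P8H71.ET.An.ane Pool.Agent.P8H1.ET.hol

theorem ind3' : S_IND3 :=
  Pool.Agent.P8H71.ET.I3.ind3 (Pool.Agent.P8H37.ET.fun3 Pool.Agent.P8H57.ET.trm
    Pool.Agent.P8H7.ET.mod fun4') Pool.Agent.P8H61.ET.gs

theorem siz' : S_SIZ :=
  Pool.Agent.P8H4.ET.siz Pool.Agent.P8H4.ET.clos Pool.Agent.P8H61.ET.root tor'
    Pool.Agent.P8H76.ET.supp (Pool.Agent.P8H65.ET.supe Pool.Agent.P8H76.ET.supp)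

theorem all3 {q : ℕ → ℕ} (hq : ∀ i, 2 ≤ q i) (L : PeriodPair)
    (h2 : IsAlgebraic ℚ L.g₂) (h3 : IsAlgebraic ℚ L.g₃)
    (hCM : ∃ α : ℂ, α.im ≠ 0 ∧ ∀ ω ∈ L.lattice, α * ω ∈ L.lattice)
    (hτ : IsAlgebraic ℚ (L.ω₂ / L.ω₁))
    (a b : ℚ) (hb : b ≠ 0)
    {s : ℕ} (l l' : Fin s → ℂ) (hl : ∀ k, IsAlgebraic ℚ (Complex.exp (l k)))
    (hl' : ∀ k, IsAlgebraic ℚ (Complex.exp (l' k))) (hli : LinearIndependent ℚ l)
    (x : ℝ) (hx : RAppr q x) (hirr : Irrational x) (L' : PeriodPair) (hω₁ : L'.ω₁ = L.ω₁)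
    (hω₂ : L'.ω₂ = x * L.ω₂) :
    AlgebraicIndependent ℚ (fun o : Option (Fin 5 ⊕ Fin s) => o.elim (2 * (Real.pi : ℂ) * Complex.I)
      (Sum.elim ![L'.ω₂ / L'.ω₁, L'.g₂, L'.g₃,
        (((|x| : ℝ) : ℂ) * H667R3.eta L' L'.ω₁ - H667R3.eta L L.ω₁) / L.ω₁,
        ℘[L'] (a * L.ω₁ + b * L.ω₂)] fun k => Complex.exp (x * l k + l' k))) ∧
    (s : Cardinal) + 6 ≤ Algebra.trdeg ℚ
      (IntermediateField.adjoin ℚ (gens3 L' (fun k => x * l k + l' k) (a * L.ω₁ + b * L.ω₂))) :=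
  fin3 (Pool.Agent.P8H22.ET.tra Pool.Agent.P8H4.ET.clos) Pool.Agent.P8H4.ET.clos
    (Pool.Agent.P8H4.ET.exb Pool.Agent.P8H4.ET.clos) alg' Pool.Agent.P8H1.ET.ge
    Pool.Agent.P8H1.ET.hol Pool.Agent.P8H71.ET.An.ane Pool.Agent.P8H75.ET.gp
    Pool.Agent.P8H57.ET.pre siz' Pool.Agent.P8H4.ET.cmq ind3' hq L h2 h3 hCM hτ a b hb l l' hl hl'
    hli x hx hirr L' hω₁ hω₂

end Pool.Agent.P8H10.ET
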