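import Pool.Agent.P8H10.ET.Fin
import Pool.Agent.P8H4.KM.Irr

/-!
# Project ET: complex multiplication, the reformulation of the hypotheses
-/

set_option autoImplicit false

open Filter Topology Pool.Agent.R347.LW Pool.Agent.P8H10.KM
open scoped PeriodPair

namespace Pool.Agent.P8H10.ET

/-- a lattice with a multiplication which is not real has an algebraic ratio of periods -/
theorem ratio_alg {L : PeriodPair} {α : ℂ} (hα : α.im ≠ 0) (hm : ∀ w ∈ L.lattice, α * w ∈ L.lattice) :
    IsAlgebraic ℚ (L.ω₂ / L.ω₁) := by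
  obtain ⟨a, b, hab⟩ := PeriodPair.mem_lattice.1 (hm _ L.ω₁_mem_lattice)
  have hω := ω₁_ne L
  have hb : (b : ℂ) ≠ 0 := by
    intro hb
    rw [hb, zero_mul, add_zero] at hab
    have h1 : α = a := (mul_right_cancel₀ hω hab).symm
    rw [h1] at hα
    simp at hα
  have h1 : L.ω₂ / L.ω₁ = (α - a) / b := by
    rw [div_eq_div_iff hω hb]
    linear_combination hab
  rw [h1]
  exact ((Pool.Agent.W245.EB.alg_of_mul hm).sub (isAlgebraic_int a)).mul
    (isAlgebraic_int b).inv

/-- a lattice with a transcendental ratio of periods has only integral multiplications -/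
theorem no_cm {L : PeriodPair} (h : Transcendental ℚ (L.ω₂ / L.ω₁)) {α : ℂ}
    (hm : ∀ w ∈ L.lattice, α * w ∈ L.lattice) : ∃ n : ℤ, α = n := by
  obtain ⟨a, b, hab⟩ := PeriodPair.mem_lattice.1 (hm _ L.ω₁_mem_lattice)
  have hω := ω₁_ne L
  by_cases him : α.im = 0
  · -- a real multiplication
    refine ⟨a, ?_⟩
    have h1 := LinearIndependent.pair_iff.1 L.indep (a - α.re) b (by
      simp only [Complex.real_smul]
      have h2 : ((α.re : ℝ) : ℂ) = α := by
        apply Complex.ext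
        · simp
        · simp [him]
      push_cast
      rw [h2]
      linear_combination hab)
    apply Complex.ext
    · have := h1.1
      simp
      linarith
    · simp [him]
  · exact absurd (ratio_alg him hm) h

/-- clearing denominators -/
theorem clear_den {s : ℕ} (c : Fin s → ℚ) : ∃ b : Fin s → ℤ,
    ∀ i, (b i : ℚ) = (∏ i, (c i).den : ℕ) * c i := by
  have hdvd : ∀ i, ∃ b : ℤ, (b : ℚ) = (∏ i, (c i).den : ℕ) * c i := by
    intro i
    obtain ⟨b, hb⟩ := Finset.dvd_prod_of_mem (fun i => (c i).den) (Finset.mem_univ i)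
    refine ⟨b * (c i).num, ?_⟩
    rw [hb]
    push_cast
    have := Rat.den_mul_eq_num (c i)
    rw [← this]
    ring
  choose b hb using hdvd
  exact ⟨b, hb⟩

/-- the logarithms are independent -/
theorem li_of {s : ℕ} {x : ℂ} {t l l' : Fin s → ℂ} (ht : ∀ k, t k = x * l k + l' k)
    (hl' : ∀ k, IsAlgebraic ℚ (Complex.exp (l' k)))
    (h : ∀ m : Fin s → ℤ, IsAlgebraic ℚ (Complex.exp (∑ k, m k * t k)) → m = 0) :
    LinearIndependent ℚ l := by
  rw [Fintype.linearIndependent_iff]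
  intro c hc
  obtain ⟨b, hb⟩ := clear_den c
  have h1 : ∑ k, (b k : ℂ) * l k = 0 := by
    have h2 : ∑ k, (b k : ℂ) * l k = ((∏ i, (c i).den : ℕ) : ℂ) * ∑ j, c j • l j := by
      rw [Finset.mul_sum]
      refine Finset.sum_congr rfl fun j _ => ?_
      have h3 : ((b j : ℤ) : ℂ) = ((∏ i, (c i).den : ℕ) : ℂ) * (c j : ℂ) := by exact_mod_cast hb j
      rw [h3, Rat.smul_def]
      ring
    rw [h2, hc, mul_zero]
  have h4 := h b (by
    have h5 : ∑ k, (b k : ℂ) * t k = ∑ k, (b k : ℂ) * l' k := by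
      have h6 : ∑ k, (b k : ℂ) * t k = x * ∑ k, (b k : ℂ) * l k + ∑ k, (b k : ℂ) * l' k := by
        rw [Finset.mul_sum, ← Finset.sum_add_distrib]
        exact Finset.sum_congr rfl fun k _ => by rw [ht k]; ring
      rw [h6, h1]
      ring
    rw [h5, ← mem_Lam]
    refine sum_mem fun k _ => ?_
    have h6 := zsmul_mem (mem_Lam.2 (hl' k)) (b k)
    rwa [zsmul_eq_mul] at h6)
  intro i
  have h5 := hb i
  rw [h4, Pi.zero_apply, Int.cast_zero] at h5
  have h6 : ((∏ i, (c i).den : ℕ) : ℚ) ≠ 0 := by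
    exact_mod_cast Finset.prod_ne_zero_iff.2 fun i _ => (c i).den_nz
  exact (mul_eq_zero.1 h5.symm).resolve_left h6

/-- independence modulo `2 π i` -/
theorem indep_pi {s : ℕ} {t : Fin s → ℂ}
    (h : ∀ m : Fin s → ℤ, IsAlgebraic ℚ (Complex.exp (∑ k, m k * t k)) → m = 0)
    (c : Fin s → ℚ) (r : ℚ) (hc : ∑ k, (c k : ℂ) * t k = r * (2 * Real.pi * Complex.I)) : c = 0 := by
  obtain ⟨b, hb⟩ := clear_den c
  have h4 := h b (by
    have h2 : ∑ k, (b k : ℂ) * t k = ((∏ i, (c i).den : ℕ) * r : ℚ) • (2 * Real.pi * Complex.I) := by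
      have h3 : ∑ k, (b k : ℂ) * t k = ((∏ i, (c i).den : ℕ) : ℂ) * ∑ j, (c j : ℂ) * t j := by
        rw [Finset.mul_sum]
        refine Finset.sum_congr rfl fun j _ => ?_
        have h3 : ((b j : ℤ) : ℂ) = ((∏ i, (c i).den : ℕ) : ℂ) * (c j : ℂ) := by
          exact_mod_cast hb j
        rw [h3]
        ring
      rw [h3, hc, Rat.smul_def]
      push_cast
      ring
    rw [h2, ← mem_Lam]
    refine Submodule.smul_mem _ _ ?_
    rw [mem_Lam, Complex.exp_two_pi_mul_I]
    exact isAlgebraic_one)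
  funext i
  have h5 := hb i
  rw [h4, Pi.zero_apply, Int.cast_zero] at h5
  have h6 : ((∏ i, (c i).den : ℕ) : ℚ) ≠ 0 := by
    exact_mod_cast Finset.prod_ne_zero_iff.2 fun i _ => (c i).den_nz
  exact (mul_eq_zero.1 h5.symm).resolve_left h6

end Pool.Agent.P8H10.ET
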