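import Pool.Agent.P8H10.ET.Main
import Pool.Agent.P8H10.ET.Leg

/-!
# Project ET: the transcendence degree
-/

set_option autoImplicit false

open Filter Topology Pool.Agent.R347.LW Pool.Agent.P8H10.KM
open scoped PeriodPair

namespace Pool.Agent.P8H10.ET

variable {q : ℕ → ℕ}

/-- algebraically independent elements of `K`, together with `2 π i` -/
theorem with_pi (hq : ∀ i, 2 ≤ q i) {ι : Type} (y : ι → ℂ) (hy : ∀ i, Appr q (y i))
    (h : AlgebraicIndependent ℚ y) :
    AlgebraicIndependent ℚ (fun o : Option ι => o.elim (2 * (Real.pi : ℂ) * Complex.I) y) := by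
  have htr : Transcendental (UK hq) (2 * (Real.pi : ℂ) * Complex.I) := by
    intro halg
    have := UK_closed hq
    obtain ⟨t, ht⟩ := minpoly.mem_range_of_degree_eq_one (UK hq) _
      (IsAlgClosed.degree_eq_one_of_irreducible (UK hq) (minpoly.irreducible halg.isIntegral))
    exact two_pi_I_notMem hq (ht ▸ t.2)
  refine (h.option_iff_transcendental (2 * (Real.pi : ℂ) * Complex.I)).2 (fun halg => htr ?_)
  obtain ⟨P, hP, hP0⟩ := halg
  have hle : ∀ z ∈ Algebra.adjoin ℚ (Set.range y), z ∈ UK hq := by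
    intro z hz
    induction hz using Algebra.adjoin_induction with
    | mem x hx =>
      obtain ⟨j, rfl⟩ := hx
      exact hy j
    | algebraMap r => exact (UK hq).algebraMap_mem r
    | add x y _ _ h1 h2 => exact add_mem h1 h2
    | mul x y _ _ h1 h2 => exact mul_mem h1 h2
  let g : Algebra.adjoin ℚ (Set.range y) →+* UK hq :=
    { toFun := fun z => ⟨z, hle z z.2⟩
      map_one' := rfl
      map_mul' := fun _ _ => rfl
      map_zero' := rfl
      map_add' := fun _ _ => rfl }
  have hg : Function.Injective g := fun a b hab =>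
    Subtype.ext (congrArg (fun z : UK hq => (z : ℂ)) hab)
  refine ⟨P.map g, (Polynomial.map_ne_zero_iff hg).2 hP, ?_⟩
  rw [Polynomial.aeval_def, Polynomial.eval₂_map]
  exact hP0

/-- multiplication by nonzero rational constants -/
theorem alg_ind_scaleQ {ι : Type} (y : ι → ℂ) (c : ι → ℚ)
    (hc : ∀ i, c i ≠ 0) (hy : AlgebraicIndependent ℚ y) :
    AlgebraicIndependent ℚ (fun i => (c i : ℂ) * y i) := by
  let φ : MvPolynomial ι ℚ →ₐ[ℚ] MvPolynomial ι ℚ :=
    MvPolynomial.aeval fun i => MvPolynomial.C (c i) * MvPolynomial.X i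
  let ψ : MvPolynomial ι ℚ →ₐ[ℚ] MvPolynomial ι ℚ :=
    MvPolynomial.aeval fun i => MvPolynomial.C (c i)⁻¹ * MvPolynomial.X i
  have hψφ : ψ.comp φ = AlgHom.id ℚ _ := by
    refine MvPolynomial.algHom_ext fun i => ?_
    simp only [φ, ψ, AlgHom.comp_apply, MvPolynomial.aeval_X, map_mul, AlgHom.id_apply]
    have h1 : MvPolynomial.aeval (fun i => MvPolynomial.C (c i)⁻¹ * MvPolynomial.X i)
        (MvPolynomial.C (c i) : MvPolynomial ι ℚ) = (MvPolynomial.C (c i) : MvPolynomial ι ℚ) := by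
      rw [← MvPolynomial.algebraMap_eq, AlgHom.commutes]
    rw [h1, ← mul_assoc, ← MvPolynomial.C_mul, mul_inv_cancel₀ (hc i), MvPolynomial.C_1, one_mul]
  have hφ : Function.Injective φ := by
    intro P Q h
    have := congrArg ψ h
    rw [← AlgHom.comp_apply, ← AlgHom.comp_apply, hψφ] at this
    exact this
  have hcomp : (MvPolynomial.aeval y : MvPolynomial ι ℚ →ₐ[ℚ] ℂ).comp φ =
      MvPolynomial.aeval fun i => (c i : ℂ) * y i := by
    refine MvPolynomial.algHom_ext fun i => ?_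
    simp only [φ, AlgHom.comp_apply, MvPolynomial.aeval_X, map_mul]
    congr 1
    rw [← MvPolynomial.algebraMap_eq, AlgHom.commutes]
    rfl
  have h1 : Function.Injective (MvPolynomial.aeval fun i => (c i : ℂ) * y i :
      MvPolynomial ι ℚ →ₐ[ℚ] ℂ) := by
    rw [← hcomp]
    have h0 : Function.Injective (MvPolynomial.aeval y : MvPolynomial ι ℚ →ₐ[ℚ] ℂ) := hy
    exact h0.comp hφ
  exact h1

/-- the generators of the field in the conjecture for `s` logarithms and no points of the curve -/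
def gens (L : PeriodPair) {s : ℕ} (t : Fin s → ℂ) : Set ℂ :=
  {L.g₂, L.g₃, L.ω₁, L.ω₂, H667R3.eta L L.ω₁, H667R3.eta L L.ω₂} ∪ Set.range t ∪
    Set.range fun k => Complex.exp (t k)

theorem fin (hT : S_TRA) (hC : S_CLOS) (hE : S_EXB) (hA : S_ALG) (hG : S_GE) (hH : S_HOL)
    (hI : S_IND) (hq : ∀ i, 2 ≤ q i) (L : PeriodPair)
    (h2 : IsAlgebraic ℚ L.g₂) (h3 : IsAlgebraic ℚ L.g₃) (hτ : IsAlgebraic ℚ (L.ω₂ / L.ω₁))
    {s : ℕ} (l l' : Fin s → ℂ) (hl : ∀ k, IsAlgebraic ℚ (Complex.exp (l k)))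
    (hl' : ∀ k, IsAlgebraic ℚ (Complex.exp (l' k))) (hli : LinearIndependent ℚ l)
    (x : ℝ) (hx : RAppr q x) (hirr : Irrational x) (L' : PeriodPair) (hω₁ : L'.ω₁ = L.ω₁)
    (hω₂ : L'.ω₂ = x * L.ω₂) :
    AlgebraicIndependent ℚ (fun o : Option (Fin 3 ⊕ Fin s) => o.elim (2 * (Real.pi : ℂ) * Complex.I)
      (Sum.elim ![L'.ω₂ / L'.ω₁, L'.g₂, L'.g₃] fun k => Complex.exp (x * l k + l' k))) ∧
    (s : Cardinal) + 4 ≤ Algebra.trdeg ℚ
      (IntermediateField.adjoin ℚ (gens L' fun k => x * l k + l' k)) := by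
  obtain ⟨hap, hind⟩ := main hT hC hE hA hG hH hI hq L h2 h3 hτ l l' hl hl' hli x hx hirr
  have hτ' : (x : ℂ) * (L.ω₂ / L.ω₁) = L'.ω₂ / L'.ω₁ := by
    rw [hω₁, hω₂]
    ring
  have hG' : ∀ k, (L.ω₁ ^ k)⁻¹ * EG k ((x : ℂ) * (L.ω₂ / L.ω₁)) = L'.G k := by
    intro k
    rw [hG L' k, hτ', hω₁]
  -- the family with the invariants in place of the Eisenstein series
  have hsc : AlgebraicIndependent ℚ (Sum.elim ![L'.ω₂ / L'.ω₁, L'.g₂, L'.g₃]
      fun k => Complex.exp (x * l k + l' k)) := by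
    have h1 := alg_ind_scaleQ _ (Sum.elim ![1, 60, 140] fun _ => 1) (by
      rintro (i | k)
      · fin_cases i <;> simp
      · simp) hind
    have h4 : (fun i => (((Sum.elim ![1, 60, 140] fun _ => 1 : Fin 3 ⊕ Fin s → ℚ) i : ℚ) : ℂ) *
        fam L l l' x i) = Sum.elim ![L'.ω₂ / L'.ω₁, L'.g₂, L'.g₃]
          fun k => Complex.exp (x * l k + l' k) := by
      funext i
      rcases i with i | k
      · fin_cases i
        · simp [fam, ← hτ']
        · change ((60 : ℚ) : ℂ) * ((L.ω₁ ^ 4)⁻¹ * EG 4 ((x : ℂ) * (L.ω₂ / L.ω₁))) = 60 * L'.G 4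
          rw [hG' 4]
          norm_num
        · change ((140 : ℚ) : ℂ) * ((L.ω₁ ^ 6)⁻¹ * EG 6 ((x : ℂ) * (L.ω₂ / L.ω₁))) = 140 * L'.G 6
          rw [hG' 6]
          norm_num
      · simp [fam]
    rw [← h4]
    exact h1
  have happ : ∀ i, Appr q (Sum.elim ![L'.ω₂ / L'.ω₁, L'.g₂, L'.g₃]
      (fun k => Complex.exp (x * l k + l' k)) i) := by
    rintro (i | k)
    · fin_cases i
      · have := hap (Sum.inl 0)
        rw [← hτ']
        exact this
      · have h1 := hap (Sum.inl 1)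
        have h4 : Appr q (L'.G 4) := by
          rw [← hG' 4]
          exact h1
        exact Appr.mul hq (Appr.rat hq 60 |> fun h => by simpa using h) h4
      · have h1 := hap (Sum.inl 2)
        have h4 : Appr q (L'.G 6) := by
          rw [← hG' 6]
          exact h1
        exact Appr.mul hq (Appr.rat hq 140 |> fun h => by simpa using h) h4
    · exact hap (Sum.inr k)
  have h5 := with_pi hq _ happ hsc
  refine ⟨h5, ?_⟩
  have h6 := le_trdeg (F := IntermediateField.adjoin ℚ (gens L' fun k => x * l k + l' k)) _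
    (fun o => by
      have hmem : ∀ z ∈ gens L' fun k => (x : ℂ) * l k + l' k, z ∈
          IntermediateField.adjoin ℚ (gens L' fun k => (x : ℂ) * l k + l' k) :=
        fun z hz => IntermediateField.subset_adjoin _ _ hz
      rcases o with _ | (i | k)
      · change 2 * (Real.pi : ℂ) * Complex.I ∈ _
        obtain ⟨n, hn, hn2⟩ := legendre L'
        have h7 : 2 * (Real.pi : ℂ) * Complex.I =
            (L'.ω₁ * H667R3.eta L' L'.ω₂ - L'.ω₂ * H667R3.eta L' L'.ω₁) / (n : ℂ) := by
          rw [hn2, mul_div_cancel_left₀]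
          exact_mod_cast hn
        rw [h7]
        refine div_mem (sub_mem (mul_mem (hmem _ ?_) (hmem _ ?_)) (mul_mem (hmem _ ?_) (hmem _ ?_)))
          (intCast_mem _ n)
        all_goals simp [gens]
      · fin_cases i
        · exact div_mem (hmem _ (by simp [gens])) (hmem _ (by simp [gens]))
        · exact hmem _ (by simp [gens])
        · exact hmem _ (by simp [gens])
      · exact hmem _ (Or.inr ⟨k, rfl⟩)) h5
  refine le_trans (le_of_eq ?_) h6
  rw [Cardinal.mk_option, Cardinal.mk_sum]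
  simp
  ring

end Pool.Agent.P8H10.ET
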