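import Pool.Agent.P8H10.ET.Main3
import Pool.Agent.P8H10.ET.Fin

/-!
# Project ET, one point of the curve: the transcendence degree
-/

set_option autoImplicit false

open Filter Topology Pool.Agent.R347.LW Pool.Agent.P8H10.KM
open scoped PeriodPair

namespace Pool.Agent.P8H10.ET

variable {q : ℕ → ℕ}

/-- lower bound of the transcendence degree by algebraic elements -/
theorem le_trdeg_alg {F : IntermediateField ℚ ℂ} {ι : Type} (y : ι → ℂ)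
    (hF : ∀ i, IsAlgebraic F (y i)) (hy : AlgebraicIndependent ℚ y) :
    Cardinal.mk ι ≤ Algebra.trdeg ℚ F := by
  have h1 : AlgebraicIndependent ℚ
      (fun i => (⟨y i, mem_algebraicClosure_iff.2 (hF i)⟩ : algebraicClosure F ℂ)) := by
    refine AlgebraicIndependent.of_comp ((algebraicClosure F ℂ).val.restrictScalars ℚ) ?_
    exact hy
  have h2 := h1.cardinalMk_le_trdeg
  have h3 := lift_trdeg_add_eq ℚ F (algebraicClosure F ℂ)
  have h4 : Algebra.trdeg F (algebraicClosure F ℂ) = 0 := trdeg_eq_zero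
  rw [h4] at h3
  simp only [Cardinal.lift_id, add_zero] at h3
  rw [h3]
  exact h2

/-- the generators of the field in the conjecture for `s` logarithms and one point of the curve -/
def gens3 (L : PeriodPair) {s : ℕ} (t : Fin s → ℂ) (p : ℂ) : Set ℂ :=
  gens L t ∪ {p, ℘[L] p, H667R3.zeta L p}

theorem fin3 (hT : S_TRA) (hC : S_CLOS) (hE : S_EXB) (hA : S_ALG) (hG : S_GE) (hH : S_HOL)
    (hN : S_ANE) (hP : S_GP) (hR : S_PRE) (hS : S_SIZ) (hQ : S_CMQ)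
    (hI : S_IND3) (hq : ∀ i, 2 ≤ q i) (L : PeriodPair)
    (h2 : IsAlgebraic ℚ L.g₂) (h3 : IsAlgebraic ℚ L.g₃)
    (hCM : ∃ α : ℂ, α.im ≠ 0 ∧ ∀ ω ∈ L.lattice, α * ω ∈ L.lattice)
    (hτ : IsAlgebraic ℚ (L.ω₂ / L.ω₁))
    (a b : ℚ) (hb : b ≠ 0)
    {s : ℕ} (l l' : Fin s → ℂ) (hl : ∀ k, IsAlgebraic ℚ (Complex.exp (l k)))
    (hl' : ∀ k, IsAlgebraic ℚ (Complex.exp (l' k))) (hli : LinearIndependent ℚ l)
    (x : ℝ) (hx : RAppr q x) (hirr : Irrational x) (L' : PeriodPair) (hω₁ : L'.ω₁ = L.ω₁)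
    (hω₂ : L'.ω₂ = x * L.ω₂) :
    AlgebraicIndependent ℚ (fun o : Option (Fin 5 ⊕ Fin s) => o.elim (2 * (Real.pi : ℂ) * Complex.I)
      (Sum.elim ![L'.ω₂ / L'.ω₁, L'.g₂, L'.g₃,
        (((|x| : ℝ) : ℂ) * H667R3.eta L' L'.ω₁ - H667R3.eta L L.ω₁) / L.ω₁,
        ℘[L'] (a * L.ω₁ + b * L.ω₂)] fun k => Complex.exp (x * l k + l' k))) ∧
    (s : Cardinal) + 6 ≤ Algebra.trdeg ℚ
      (IntermediateField.adjoin ℚ (gens3 L' (fun k => x * l k + l' k) (a * L.ω₁ + b * L.ω₂))) := by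
  obtain ⟨ε, hε, habs, hap, hind⟩ := main3 hT hC hE hA hG hH hN hP hR hS hI hq L h2 h3 hτ a b hb
    l l' hl hl' hli x hx hirr
  have hω := ω₁_ne L
  have hx0 : (x : ℂ) ≠ 0 := by exact_mod_cast hirr.ne_zero
  have hε2 : (ε : ℂ) * ε = 1 := by rcases hε with rfl | rfl <;> simp
  have hε0 : (ε : ℚ) ≠ 0 := by rcases hε with rfl | rfl <;> simp
  have habs' : ((|x| : ℝ) : ℂ) = ε * x := by
    rw [habs]
    push_cast
    ring
  have hτ' : (x : ℂ) * (L.ω₂ / L.ω₁) = L'.ω₂ / L'.ω₁ := by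
    rw [hω₁, hω₂]
    ring
  have hG' : ∀ k, (L.ω₁ ^ k)⁻¹ * EG k ((x : ℂ) * (L.ω₂ / L.ω₁)) = L'.G k := by
    intro k
    rw [hG L' k, hτ', hω₁]
  have hP' : (L.ω₁ ^ 2)⁻¹ * EP (a + b * (L.ω₂ / L.ω₁)) ((x : ℂ) * (L.ω₂ / L.ω₁)) =
      ℘[L'] (a * L.ω₁ + b * L.ω₂) := by
    rw [hP.1 L', hτ', hω₁]
    congr 2
    field_simp
  have hη' : (ε : ℂ) * ((L.ω₁ ^ 2)⁻¹ * x * EH ((x : ℂ) * (L.ω₂ / L.ω₁)) -
      ε * (H667R3.eta L L.ω₁ / L.ω₁)) =
      (((|x| : ℝ) : ℂ) * H667R3.eta L' L'.ω₁ - H667R3.eta L L.ω₁) / L.ω₁ := by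
    rw [hP.2.1 L', hτ', hω₁, habs']
    field_simp
    linear_combination (-H667R3.eta L L.ω₁ * L.ω₁) * hε2
  set fm : Fin 5 ⊕ Fin s → ℂ := Sum.elim ![L'.ω₂ / L'.ω₁, L'.g₂, L'.g₃,
        (((|x| : ℝ) : ℂ) * H667R3.eta L' L'.ω₁ - H667R3.eta L L.ω₁) / L.ω₁,
        ℘[L'] (a * L.ω₁ + b * L.ω₂)] fun k => Complex.exp (x * l k + l' k) with hfm
  have hsc4 : (fun i => (((Sum.elim ![1, 60, 140, (ε : ℚ), 1] fun _ => 1 : Fin 5 ⊕ Fin s → ℚ) i : ℚ) :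
      ℂ) * fam3 L (ε * (H667R3.eta L L.ω₁ / L.ω₁)) (a + b * (L.ω₂ / L.ω₁)) l l' x i) = fm := by
    funext i
    rcases i with i | k
    · fin_cases i
      · simp [fam3, hfm, ← hτ']
      · change ((60 : ℚ) : ℂ) * ((L.ω₁ ^ 4)⁻¹ * EG 4 ((x : ℂ) * (L.ω₂ / L.ω₁))) = 60 * L'.G 4
        rw [hG' 4]
        norm_num
      · change ((140 : ℚ) : ℂ) * ((L.ω₁ ^ 6)⁻¹ * EG 6 ((x : ℂ) * (L.ω₂ / L.ω₁))) = 140 * L'.G 6
        rw [hG' 6]
        norm_num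
      · change (((ε : ℚ)) : ℂ) * ((L.ω₁ ^ 2)⁻¹ * x * EH ((x : ℂ) * (L.ω₂ / L.ω₁)) -
          ε * (H667R3.eta L L.ω₁ / L.ω₁)) =
          (((|x| : ℝ) : ℂ) * H667R3.eta L' L'.ω₁ - H667R3.eta L L.ω₁) / L.ω₁
        rw [← hη']
        push_cast
        rfl
      · change (((1 : ℚ)) : ℂ) * ((L.ω₁ ^ 2)⁻¹ * EP (a + b * (L.ω₂ / L.ω₁))
          ((x : ℂ) * (L.ω₂ / L.ω₁))) = ℘[L'] (a * L.ω₁ + b * L.ω₂)
        rw [hP']
        push_cast
        ring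
    · simp [fam3, hfm]
  have hsc : AlgebraicIndependent ℚ fm := by
    rw [← hsc4]
    refine alg_ind_scaleQ _ _ ?_ hind
    rintro (i | k)
    · fin_cases i
      · simp
      · simp
      · simp
      · simpa using hε0
      · simp
    · simp
  have happ : ∀ i, Appr q (fm i) := by
    intro i
    have h5 := congrFun hsc4 i
    rw [← h5]
    exact Appr.mul hq (Appr.rat hq _) (hap i)
  have h5 := with_pi hq _ happ hsc
  refine ⟨h5, ?_⟩
  set F := IntermediateField.adjoin ℚ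
    (gens3 L' (fun k => (x : ℂ) * l k + l' k) (a * L.ω₁ + b * L.ω₂)) with hF
  have hmem : ∀ z ∈ gens3 L' (fun k => (x : ℂ) * l k + l' k) (a * L.ω₁ + b * L.ω₂), z ∈ F :=
    fun z hz => IntermediateField.subset_adjoin _ _ hz
  have halg : ∀ z ∈ F, IsAlgebraic F z := fun z hz => isAlgebraic_algebraMap (⟨z, hz⟩ : F)
  have halgQ : ∀ z : ℂ, IsAlgebraic ℚ z → IsAlgebraic F z := fun z hz =>
    hz.extendScalars (algebraMap ℚ F).injective
  have hpi : 2 * (Real.pi : ℂ) * Complex.I ∈ F := by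
    obtain ⟨n, hn, hn2⟩ := legendre L'
    have h7 : 2 * (Real.pi : ℂ) * Complex.I =
        (L'.ω₁ * H667R3.eta L' L'.ω₂ - L'.ω₂ * H667R3.eta L' L'.ω₁) / (n : ℂ) := by
      rw [hn2, mul_div_cancel_left₀]
      exact_mod_cast hn
    rw [h7]
    refine div_mem (sub_mem (mul_mem (hmem _ ?_) (hmem _ ?_)) (mul_mem (hmem _ ?_) (hmem _ ?_)))
      (intCast_mem _ n)
    all_goals simp [gens3, gens]
  have hτF : L'.ω₂ / L'.ω₁ ∈ F :=
    div_mem (hmem _ (by simp [gens3, gens])) (hmem _ (by simp [gens3, gens]))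
  have hω₁F : L.ω₁ ∈ F := by
    rw [← hω₁]
    exact hmem _ (by simp [gens3, gens])
  have hτ0 : L.ω₂ / L.ω₁ ≠ 0 := by
    intro h0
    apply ratio_im L
    rw [h0, Complex.zero_im]
  -- `x` is algebraic over `F`
  have hxF : IsAlgebraic F ((|x| : ℝ) : ℂ) := by
    have h7 : ((|x| : ℝ) : ℂ) = (ε : ℂ) * ((L'.ω₂ / L'.ω₁) * (L.ω₂ / L.ω₁)⁻¹) := by
      rw [habs', ← hτ', mul_assoc, mul_inv_cancel₀ hτ0, mul_one]
    rw [h7]
    exact (halgQ _ (isAlgebraic_intCast ε)).mul ((halg _ hτF).mul (halgQ _ hτ.inv))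
  -- `η₁` is algebraic over `F`
  have hηF : IsAlgebraic F (H667R3.eta L L.ω₁) := by
    obtain ⟨a₁, a₂, ha₁, ha₂, h7⟩ := hQ L h2 h3 hCM
    have h8 : H667R3.eta L L.ω₁ = (a₁ * (2 * Real.pi * Complex.I) + a₂ * L.ω₁ ^ 2) * (L.ω₁)⁻¹ := by
      rw [← h7]
      field_simp
    rw [h8]
    exact (((halgQ _ ha₁).mul (halg _ hpi)).add ((halgQ _ ha₂).mul ((halg _ hω₁F).pow 2))).mul
      (halg _ hω₁F).inv
  have h6 := le_trdeg_alg (F := F) _ (fun o => by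
      rcases o with _ | (i | k)
      · exact halg _ hpi
      · fin_cases i
        · exact halg _ hτF
        · change IsAlgebraic F L'.g₂
          exact halg _ (hmem _ (by simp [gens3, gens]))
        · change IsAlgebraic F L'.g₃
          exact halg _ (hmem _ (by simp [gens3, gens]))
        · change IsAlgebraic F ((((|x| : ℝ) : ℂ) * H667R3.eta L' L'.ω₁ - H667R3.eta L L.ω₁) / L.ω₁)
          rw [div_eq_mul_inv]
          exact ((hxF.mul (halg _ (hmem _ (by simp [gens3, gens])))).sub hηF).mul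
            (halg _ hω₁F).inv
        · change IsAlgebraic F (℘[L'] (a * L.ω₁ + b * L.ω₂))
          exact halg _ (hmem _ (by simp [gens3]))
      · exact halg _ (hmem _ (Or.inl (Or.inr ⟨k, rfl⟩)))) h5
  refine le_trans (le_of_eq ?_) h6
  rw [Cardinal.mk_option, Cardinal.mk_sum]
  simp
  ring

end Pool.Agent.P8H10.ET
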