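import Pool.Agent.P8H10.ET.StmD
import Pool.Agent.P8H10.KM.TrdR
import Pool.Agent.P8H4.KM.Lio

/-!
# Project ET: assembly
-/

set_option autoImplicit false

open Filter Topology Pool.Agent.R347.LW Pool.Agent.P8H10.KM
open scoped PeriodPair

namespace Pool.Agent.P8H10.ET

variable {q : ℕ → ℕ}

/-- the lattice `ℤ ω₁ + ℤ x ω₂` -/
noncomputable def stretch (L : PeriodPair) (x : ℝ) (hx : x ≠ 0) : PeriodPair where
  ω₁ := L.ω₁
  ω₂ := x * L.ω₂
  indep := by
    have h := LinearIndependent.pair_iff.1 L.indep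
    rw [LinearIndependent.pair_iff]
    intro a b hab
    have h1 := h a (b * x) (by
      rw [← hab]
      simp only [Complex.real_smul]
      push_cast
      ring)
    exact ⟨h1.1, (mul_eq_zero.1 h1.2).resolve_right hx⟩

theorem ratio_im (L : PeriodPair) : (L.ω₂ / L.ω₁).im ≠ 0 := by
  intro h
  have h1 := LinearIndependent.pair_iff.1 L.indep (-(L.ω₂ / L.ω₁).re) 1 (by
    have h2 : (((L.ω₂ / L.ω₁).re : ℝ) : ℂ) = L.ω₂ / L.ω₁ := by
      apply Complex.ext
      · simp
      · simp [h]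
    simp only [Complex.real_smul]
    push_cast
    rw [h2]
    by_cases h0 : L.ω₁ = 0
    · exfalso
      have h3 := LinearIndependent.pair_iff.1 L.indep 1 0 (by simp [h0])
      exact one_ne_zero h3.1
    · field_simp
      ring)
  exact one_ne_zero h1.2

theorem ω₁_ne (L : PeriodPair) : L.ω₁ ≠ 0 := by
  intro h0
  have h3 := LinearIndependent.pair_iff.1 L.indep 1 0 (by simp [h0])
  exact one_ne_zero h3.1

/-- the four kinds of functions -/
noncomputable def fam (L : PeriodPair) {s : ℕ} (l l' : Fin s → ℂ) (z : ℂ) : Fin 3 ⊕ Fin s → ℂ :=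
  Sum.elim ![z * (L.ω₂ / L.ω₁), (L.ω₁ ^ 4)⁻¹ * EG 4 (z * (L.ω₂ / L.ω₁)),
    (L.ω₁ ^ 6)⁻¹ * EG 6 (z * (L.ω₂ / L.ω₁))] (fun k => Complex.exp (z * l k + l' k))

theorem EG_an (hH : S_HOL) {k : ℕ} (hk : 3 ≤ k) (he : Even k) {τ : ℂ} (hτ : τ.im ≠ 0) :
    AnalyticAt ℂ (EG k) τ := by
  have hopen : IsOpen {τ : ℂ | 0 < τ.im} := isOpen_lt continuous_const Complex.continuous_im
  rcases lt_or_gt_of_ne hτ with h | h
  · have h1 : AnalyticAt ℂ (EG k) (-τ) := by
      refine ((hH k hk).1.analyticOnNhd hopen) (-τ) ?_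
      simpa using h
    have h2 : EG k = fun z => EG k (-z) := by
      funext z
      rw [(hH k hk).2 he]
    rw [h2]
    exact h1.comp' (analyticAt_id.neg)
  · exact ((hH k hk).1.analyticOnNhd hopen) τ h

theorem fam_an (hH : S_HOL) (L : PeriodPair) {s : ℕ} (l l' : Fin s → ℂ) (i : Fin 3 ⊕ Fin s) {z : ℂ}
    (hz : (z * (L.ω₂ / L.ω₁)).im ≠ 0) : AnalyticAt ℂ (fun z => fam L l l' z i) z := by
  have h0 : AnalyticAt ℂ (fun z : ℂ => z * (L.ω₂ / L.ω₁)) z := analyticAt_id.mul analyticAt_const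
  rcases i with i | k
  · fin_cases i
    · exact h0
    · have h1 : AnalyticAt ℂ (fun z : ℂ => EG 4 (z * (L.ω₂ / L.ω₁))) z :=
        AnalyticAt.comp' (g := EG 4) (f := fun z : ℂ => z * (L.ω₂ / L.ω₁))
          (EG_an hH (by norm_num) (by decide) hz) h0
      exact analyticAt_const.mul h1
    · have h1 : AnalyticAt ℂ (fun z : ℂ => EG 6 (z * (L.ω₂ / L.ω₁))) z :=
        AnalyticAt.comp' (g := EG 6) (f := fun z : ℂ => z * (L.ω₂ / L.ω₁))
          (EG_an hH (by norm_num) (by decide) hz) h0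
      exact analyticAt_const.mul h1
  · exact ((analyticAt_id.mul analyticAt_const).add analyticAt_const).cexp

/-- polynomials in the functions -/
theorem poly_an (hH : S_HOL) (L : PeriodPair) {s : ℕ} (l l' : Fin s → ℂ)
    (P : MvPolynomial (Fin 3 ⊕ Fin s) ℤ) {z : ℂ} (hz : (z * (L.ω₂ / L.ω₁)).im ≠ 0) :
    AnalyticAt ℂ (fun z => MvPolynomial.aeval (fam L l l' z) P) z := by
  induction P using MvPolynomial.induction_on with
  | C a => simpa using analyticAt_const
  | add p q hp hq =>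
    have h := hp.add hq
    refine h.congr (Filter.Eventually.of_forall fun z => ?_)
    simp
  | mul_X p i hp =>
    have h := hp.mul (fam_an hH L l l' i hz)
    refine h.congr (Filter.Eventually.of_forall fun z => ?_)
    simp

/-- the size of `(u / v) τ` -/
theorem size_tau (hC : S_CLOS) {τ : ℂ} (hτ : IsAlgebraic ℚ τ) : ∃ h : ℕ, ∀ Y : ℕ, 2 ≤ Y →
    ∀ (u : ℤ) (v : ℕ), |u| ≤ Y → 1 ≤ v → v ≤ Y → RB (tow h Y) (tow h Y) ((u / v : ℂ) * τ) := by
  obtain ⟨h, hh⟩ := hC
  obtain ⟨m, hm⟩ := Pool.Agent.P8H4.KM.exists_RB hτ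
  refine ⟨h + (m + 2), fun Y hY u v hu hv hvY => ?_⟩
  have hN : Y + (m + 2) ≤ tow (m + 2) Y := le_tow _ _
  have h1 := hh (tow (m + 2) Y) (by omega) 2 ![(u / v : ℂ), τ] (MvPolynomial.X 0 * MvPolynomial.X 1)
    (by omega) (fun i => by
      fin_cases i
      · refine ⟨Polynomial.C (v : ℤ) * Polynomial.X - Polynomial.C u, ?_, ?_, fun n => ?_, ?_⟩
        · intro h0
          have h2 := congrArg (fun P : Polynomial ℤ => P.coeff 1) h0
          rw [Polynomial.coeff_sub, Polynomial.coeff_C_mul, Polynomial.coeff_X_one,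
            Polynomial.coeff_C_ne_zero one_ne_zero, Polynomial.coeff_zero] at h2
          omega
        · rw [Polynomial.natDegree_sub_C]
          refine (Polynomial.natDegree_C_mul_le _ _).trans (Polynomial.natDegree_X_le.trans (by omega))
        · rw [Polynomial.coeff_sub, Polynomial.coeff_C_mul, Polynomial.coeff_X, Polynomial.coeff_C]
          have hY' : (Y : ℤ) ≤ (tow (m + 2) Y : ℕ) := by exact_mod_cast (by omega)
          have hv' : (v : ℤ) ≤ Y := by exact_mod_cast hvY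
          rcases eq_or_ne n 0 with rfl | hn
          · simp only [if_pos rfl]
            simp
            omega
          · by_cases h1 : 1 = n
            · subst h1
              simp
              omega
            · simp [h1, hn]
        · have hv0 : (v : ℂ) ≠ 0 := by exact_mod_cast (by omega : v ≠ 0)
          simp
          field_simp
          ring
      · exact hm.mono (by omega) (by omega)) ⟨?_, ?_⟩
  · rw [tow_tow] at h1
    simpa using h1
  · refine (MvPolynomial.totalDegree_mul _ _).trans ?_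
    rw [MvPolynomial.totalDegree_X, MvPolynomial.totalDegree_X]
    omega
  · rw [show (MvPolynomial.X 0 * MvPolynomial.X 1 : MvPolynomial (Fin 2) ℤ) =
      MvPolynomial.monomial (Finsupp.single 0 1 + Finsupp.single 1 1) 1 by
        rw [← one_mul (1 : ℤ), ← MvPolynomial.monomial_mul]
        rfl]
    rw [MvPolynomial.support_monomial, if_neg one_ne_zero, Finset.sum_singleton,
      MvPolynomial.coeff_monomial, if_pos rfl, abs_one]
    have : (1 : ℕ) ≤ tow (m + 2) Y := by omega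
    exact_mod_cast this

/-- sizes at the rational points -/
theorem fam_size (hC : S_CLOS) (hE : S_EXB) (hA : S_ALG) (hG : S_GE) (hH : S_HOL) (L : PeriodPair)
    (h2 : IsAlgebraic ℚ L.g₂) (h3 : IsAlgebraic ℚ L.g₃) (hτ : IsAlgebraic ℚ (L.ω₂ / L.ω₁))
    {s : ℕ} (l l' : Fin s → ℂ) (hl : ∀ k, IsAlgebraic ℚ (Complex.exp (l k)))
    (hl' : ∀ k, IsAlgebraic ℚ (Complex.exp (l' k))) : ∃ h : ℕ, ∀ Y : ℕ, 2 ≤ Y → ∀ (u : ℤ) (v : ℕ),
    u ≠ 0 → |u| ≤ Y → 1 ≤ v → v ≤ Y → ∀ i, RB (tow h Y) (tow h Y) (fam L l l' (u / v : ℂ) i) := by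
  have hmono : ∀ {h h' Y : ℕ} {a : ℂ}, h ≤ h' → RB (tow h Y) (tow h Y) a →
      RB (tow h' Y) (tow h' Y) a := fun hh ha => ha.mono (tow_mono_left hh _) (tow_mono_left hh _)
  obtain ⟨h0, hh0⟩ := size_tau hC hτ
  obtain ⟨h1, hh1⟩ := hA L h2 h3
  choose he hhe using fun k => hE (l k) (l' k) (hl k) (hl' k)
  refine ⟨h0 + h1 + ∑ k, he k, fun Y hY u v hu huY hv hvY i => ?_⟩
  have hstr : ∀ k : ℕ, 3 ≤ k → Even k →
      (L.ω₁ ^ k)⁻¹ * EG k ((u / v : ℂ) * (L.ω₂ / L.ω₁)) =
        (stretch L ((u.natAbs : ℝ) / v) (by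
          have h4 : (u.natAbs : ℝ) ≠ 0 := by exact_mod_cast Int.natAbs_ne_zero.2 hu
          have h5 : (v : ℝ) ≠ 0 := by exact_mod_cast (by omega : v ≠ 0)
          exact div_ne_zero h4 h5)).G k := by
    intro k hk hek
    rw [hG]
    congr 1
    change EG k _ = EG k (((((u.natAbs : ℝ) / v : ℝ) : ℂ) * L.ω₂) / L.ω₁)
    rcases Int.natAbs_eq u with h | h
    · have hu' : (u : ℂ) = (u.natAbs : ℂ) := by
        have := congrArg (fun z : ℤ => (z : ℂ)) h
        simpa only [Int.cast_natCast] using this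
      congr 1
      rw [hu']
      push_cast
      ring
    · have hu' : (u : ℂ) = -(u.natAbs : ℂ) := by
        have := congrArg (fun z : ℤ => (z : ℂ)) h
        simpa only [Int.cast_neg, Int.cast_natCast] using this
      rw [← (hH k hk).2 hek]
      congr 1
      rw [hu']
      push_cast
      ring
  have hab : u.natAbs ≤ Y := by
    have h4 : (u.natAbs : ℤ) ≤ Y := by rwa [Int.natCast_natAbs]
    exact_mod_cast h4
  have hab1 : 1 ≤ u.natAbs := Nat.one_le_iff_ne_zero.2 (Int.natAbs_ne_zero.2 hu)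
  have hL' := hh1 Y hY u.natAbs v (stretch L ((u.natAbs : ℝ) / v) (by
          have h4 : (u.natAbs : ℝ) ≠ 0 := by exact_mod_cast Int.natAbs_ne_zero.2 hu
          have h5 : (v : ℝ) ≠ 0 := by exact_mod_cast (by omega : v ≠ 0)
          exact div_ne_zero h4 h5)) hab1 hab hv hvY rfl (by
    change ((((u.natAbs : ℝ) / v : ℝ) : ℂ) * L.ω₂) = _
    push_cast
    rfl)
  rcases i with i | k
  · fin_cases i
    · exact hmono (by omega) (hh0 Y hY u v huY hv hvY)
    · change RB _ _ ((L.ω₁ ^ 4)⁻¹ * EG 4 ((u / v : ℂ) * (L.ω₂ / L.ω₁)))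
      rw [hstr 4 (by norm_num) (by decide)]
      exact hmono (by omega) hL'.1
    · change RB _ _ ((L.ω₁ ^ 6)⁻¹ * EG 6 ((u / v : ℂ) * (L.ω₂ / L.ω₁)))
      rw [hstr 6 (by norm_num) (by decide)]
      exact hmono (by omega) hL'.2
  · have h4 := Finset.single_le_sum (f := he) (fun _ _ => Nat.zero_le _) (Finset.mem_univ k)
    exact hmono (by omega) (hhe k Y hY u v huY hv hvY)

/-- independence of the functions, for both half planes -/
theorem indep_fun (hH : S_HOL) (hI : S_IND) (L : PeriodPair) (hτ : IsAlgebraic ℚ (L.ω₂ / L.ω₁))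
    {s : ℕ} (l l' : Fin s → ℂ) (hl : ∀ k, IsAlgebraic ℚ (Complex.exp (l k)))
    (hli : LinearIndependent ℚ l) (P : MvPolynomial (Fin 3 ⊕ Fin s) ℤ) (σ : ℤ) (hσ : σ = 1 ∨ σ = -1)
    (h : ∀ z : ℂ, 0 < (z * (σ * (L.ω₂ / L.ω₁))).im → MvPolynomial.aeval (fam L l l' z) P = 0) :
    P = 0 := by
  set τ := L.ω₂ / L.ω₁ with hτd
  have hσ2 : (σ : ℂ) * σ = 1 := by rcases hσ with rfl | rfl <;> simp
  set φ : MvPolynomial (Fin 3 ⊕ Fin s) ℤ →ₐ[ℤ] MvPolynomial (Fin 3 ⊕ Fin s) ℤ :=
    MvPolynomial.aeval (Sum.elim ![MvPolynomial.C σ * MvPolynomial.X (Sum.inl 0),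
      MvPolynomial.X (Sum.inl 1), MvPolynomial.X (Sum.inl 2)] fun k => MvPolynomial.X (Sum.inr k))
    with hφ
  have hφφ : φ (φ P) = P := by
    have h1 : φ.comp φ = AlgHom.id ℤ _ := by
      refine MvPolynomial.algHom_ext fun i => ?_
      rcases i with i | k
      · fin_cases i
        · simp only [hφ, AlgHom.comp_apply, MvPolynomial.aeval_X, AlgHom.id_apply]
          simp only [Fin.zero_eta, Fin.isValue, Sum.elim_inl, Matrix.cons_val_zero, map_mul,
            MvPolynomial.aeval_X]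
          rw [← MvPolynomial.algebraMap_eq, AlgHom.commutes, MvPolynomial.algebraMap_eq,
            ← mul_assoc, ← MvPolynomial.C_mul]
          rcases hσ with rfl | rfl <;> simp
        · simp [hφ]
        · simp [hφ]
      · simp [hφ]
    exact congrArg (fun f => f P) h1
  have h0 : φ P = 0 := by
    refine hI (σ * τ) ?_ ?_ s l l' hl hli (L.ω₁ ^ 4)⁻¹ (L.ω₁ ^ 6)⁻¹
      (inv_ne_zero (pow_ne_zero _ (ω₁_ne L))) (inv_ne_zero (pow_ne_zero _ (ω₁_ne L))) _ ?_
    · exact (isAlgebraic_algebraMap (R := ℚ) (A := ℂ) (σ : ℚ)).mul hτ |> fun h => by simpa using h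
    · have := ratio_im L
      rcases hσ with rfl | rfl
      · simpa using this
      · simpa using this
    · intro z hz
      have h1 := h z hz
      have hev : ∀ k : ℕ, 3 ≤ k → Even k → EG k (z * (σ * τ)) = EG k (z * τ) := by
        intro k hk he
        rcases hσ with rfl | rfl
        · simp
        · rw [← (hH k hk).2 he (z * τ)]
          congr 1
          push_cast
          ring
      have h2 : ((MvPolynomial.aeval (Sum.elim ![z * (σ * τ), (L.ω₁ ^ 4)⁻¹ * EG 4 (z * (σ * τ)),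
          (L.ω₁ ^ 6)⁻¹ * EG 6 (z * (σ * τ))] (fun k => Complex.exp (z * l k + l' k))) :
          MvPolynomial (Fin 3 ⊕ Fin s) ℤ →ₐ[ℤ] ℂ).comp φ) = MvPolynomial.aeval (fam L l l' z) := by
        refine MvPolynomial.algHom_ext fun i => ?_
        rcases i with i | k
        · fin_cases i
          · simp only [hφ, AlgHom.comp_apply, MvPolynomial.aeval_X, Fin.zero_eta, Fin.isValue,
              Sum.elim_inl, Matrix.cons_val_zero, map_mul, fam]
            rw [← MvPolynomial.algebraMap_eq, AlgHom.commutes]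
            simp only [algebraMap_int_eq, eq_intCast]
            linear_combination (z * τ) * hσ2
          · have e1 := hev 4 (by norm_num) (by decide)
            simp only [hφ, AlgHom.comp_apply, MvPolynomial.aeval_X, Fin.mk_one, Fin.isValue,
              Sum.elim_inl, fam, Matrix.cons_val]
            rw [e1]
          · have e1 := hev 6 (by norm_num) (by decide)
            simp only [hφ, AlgHom.comp_apply, MvPolynomial.aeval_X, Fin.reduceFinMk, Fin.isValue,
              Sum.elim_inl, fam, Matrix.cons_val]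
            rw [e1]
        · simp [hφ, fam]
      rw [← AlgHom.comp_apply, h2]
      exact h1
  rw [← hφφ, h0, map_zero]

/-- **Main theorem**: the values are approximable and algebraically independent. -/
theorem main (hT : S_TRA) (hC : S_CLOS) (hE : S_EXB) (hA : S_ALG) (hG : S_GE) (hH : S_HOL)
    (hI : S_IND) (hq : ∀ i, 2 ≤ q i) (L : PeriodPair)
    (h2 : IsAlgebraic ℚ L.g₂) (h3 : IsAlgebraic ℚ L.g₃) (hτ : IsAlgebraic ℚ (L.ω₂ / L.ω₁))
    {s : ℕ} (l l' : Fin s → ℂ) (hl : ∀ k, IsAlgebraic ℚ (Complex.exp (l k)))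
    (hl' : ∀ k, IsAlgebraic ℚ (Complex.exp (l' k))) (hli : LinearIndependent ℚ l)
    (x : ℝ) (hx : RAppr q x) (hirr : Irrational x) :
    (∀ i, Appr q (fam L l l' x i)) ∧ AlgebraicIndependent ℚ (fam L l l' x) := by
  set τ := L.ω₂ / L.ω₁ with hτd
  have hx0 : x ≠ 0 := hirr.ne_zero
  obtain ⟨h, hh⟩ := fam_size hC hE hA hG hH L h2 h3 hτ l l' hl hl'
  let e : Fin (3 + s) ≃ Fin 3 ⊕ Fin s := finSumFinEquiv.symm
  have hxτ : ((x : ℂ) * τ).im ≠ 0 := by
    rw [Complex.im_ofReal_mul]
    exact mul_ne_zero hx0 (ratio_im L)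
  obtain ⟨hap, hrel⟩ := hT q hq x hx hirr (3 + s) (fun i z => fam L l l' z (e i))
    (fun i => fam_an hH L l l' (e i) hxτ)
    ⟨h, |x|, abs_pos.2 hx0, fun Y hY u v hu hv hvY hlt i => hh Y hY u v (by
      rintro rfl
      simp at hlt) hu hv hvY (e i)⟩
  refine ⟨fun i => by simpa using hap (e.symm i), ?_⟩
  -- integral relations
  have hint : ∀ P : MvPolynomial (Fin 3 ⊕ Fin s) ℤ,
      MvPolynomial.aeval (fam L l l' x) P = 0 → P = 0 := by
    intro P hP
    have hfreq := hrel (MvPolynomial.rename e.symm P) (by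
      rw [MvPolynomial.aeval_rename]
      convert hP using 3
      funext i
      simp)
    have hfreq' : ∃ᶠ z in 𝓝[≠] (x : ℂ), MvPolynomial.aeval (fam L l l' z) P = 0 := by
      refine hfreq.mono fun z hz => ?_
      rw [MvPolynomial.aeval_rename] at hz
      convert hz using 3
      funext i
      simp
    -- the half plane
    obtain ⟨σ, hσ, hσx⟩ : ∃ σ : ℤ, (σ = 1 ∨ σ = -1) ∧ 0 < ((x : ℂ) * (σ * τ)).im := by
      rcases lt_or_gt_of_ne hxτ with h | h
      · exact ⟨-1, Or.inr rfl, by simpa using h⟩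
      · exact ⟨1, Or.inl rfl, by simpa using h⟩
    have hσ0 : (σ : ℂ) ≠ 0 := by rcases hσ with rfl | rfl <;> simp
    let U : Set ℂ := {z | 0 < (z * (σ * τ)).im}
    have hU : IsPreconnected U := by
      refine (convex_halfSpace_gt (𝕜 := ℝ) (f := fun z : ℂ => (z * (σ * τ)).im) ⟨?_, ?_⟩
        0).isPreconnected
      · intro a b
        rw [add_mul, Complex.add_im]
      · intro r a
        rw [Complex.real_smul, mul_assoc, Complex.im_ofReal_mul, smul_eq_mul]
    have hUan : AnalyticOnNhd ℂ (fun z => MvPolynomial.aeval (fam L l l' z) P) U := by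
      intro z hz
      refine poly_an hH L l l' P ?_
      intro h0
      have hz' : 0 < (z * (σ * τ)).im := hz
      rw [show z * (σ * τ) = ((σ : ℝ) : ℂ) * (z * τ) by push_cast; ring, Complex.im_ofReal_mul,
        hτd, h0, mul_zero] at hz'
      exact lt_irrefl _ hz'
    have hzero := hUan.eqOn_zero_of_preconnected_of_frequently_eq_zero hU hσx hfreq'
    exact indep_fun hH hI L hτ l l' hl hli P σ hσ fun z hz => hzero hz
  rw [algebraicIndependent_iff]
  intro P hP
  obtain ⟨d, hd, P', hP'⟩ := clear_rat P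
  have h0 := hint P' (by rw [hP', hP, mul_zero])
  -- all values of `P` vanish
  refine MvPolynomial.funext fun r => ?_
  have h5 := hP' (fun i => algebraMap ℚ ℂ (r i))
  rw [h0, map_zero] at h5
  have h6 : MvPolynomial.aeval (fun i => algebraMap ℚ ℂ (r i)) P = 0 :=
    ((mul_eq_zero.1 h5.symm).resolve_left (by exact_mod_cast hd))
  rw [show (fun i => algebraMap ℚ ℂ (r i)) = algebraMap ℚ ℂ ∘ r from rfl,
    MvPolynomial.aeval_algebraMap_apply] at h6
  have h7 := (map_eq_zero (algebraMap ℚ ℂ)).1 h6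
  simpa [MvPolynomial.aeval_eq_eval] using h7

end Pool.Agent.P8H10.ET
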