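import Pool.Agent.P8H10.ET.StmE
import Pool.Agent.P8H10.ET.Fin

/-!
# Project ET, two parameters: assembly
-/

set_option autoImplicit false

open Filter Topology Pool.Agent.R347.LW Pool.Agent.P8H10.KM
open scoped PeriodPair

namespace Pool.Agent.P8H10.ET

variable {q : ℕ → ℕ}

theorem RB_rat {N : ℕ} {u : ℤ} {v : ℕ} (hN : 1 ≤ N) (hu : |u| ≤ N) (hv : 1 ≤ v) (hvN : v ≤ N) :
    RB N N (u / v : ℂ) := by
  refine ⟨Polynomial.C (v : ℤ) * Polynomial.X - Polynomial.C u, ?_, ?_, fun n => ?_, ?_⟩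
  · intro h0
    have h2 := congrArg (fun P : Polynomial ℤ => P.coeff 1) h0
    rw [Polynomial.coeff_sub, Polynomial.coeff_C_mul, Polynomial.coeff_X_one,
      Polynomial.coeff_C_ne_zero one_ne_zero, Polynomial.coeff_zero] at h2
    omega
  · rw [Polynomial.natDegree_sub_C]
    refine (Polynomial.natDegree_C_mul_le _ _).trans (Polynomial.natDegree_X_le.trans (by omega))
  · rw [Polynomial.coeff_sub, Polynomial.coeff_C_mul, Polynomial.coeff_X, Polynomial.coeff_C]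
    have hv' : (v : ℤ) ≤ N := by exact_mod_cast hvN
    rcases eq_or_ne n 0 with rfl | hn
    · simp only [if_pos rfl]
      simp
      omega
    · by_cases h1 : 1 = n
      · subst h1
        simp
        omega
      · simp [h1, hn]
  · have hv0 : (v : ℂ) ≠ 0 := by exact_mod_cast (by omega : v ≠ 0)
    simp
    field_simp
    ring

/-- the size of `(u₁ + u₂ τ) / v` -/
theorem size_tau2 (hC : S_CLOS) {τ : ℂ} (hτ : IsAlgebraic ℚ τ) : ∃ h : ℕ, ∀ Y : ℕ, 2 ≤ Y →
    ∀ (u₁ u₂ : ℤ) (v : ℕ), |u₁| ≤ Y → |u₂| ≤ Y → 1 ≤ v → v ≤ Y →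
      RB (tow h Y) (tow h Y) ((u₁ + u₂ * τ) / v) := by
  obtain ⟨h, hh⟩ := hC
  obtain ⟨m, hm⟩ := Pool.Agent.P8H4.KM.exists_RB hτ
  refine ⟨h + (m + 3), fun Y hY u₁ u₂ v hu hu2 hv hvY => ?_⟩
  have hN : Y + (m + 3) ≤ tow (m + 3) Y := le_tow _ _
  have hY' : (Y : ℤ) ≤ (tow (m + 3) Y : ℕ) := by exact_mod_cast (by omega)
  have h1 := hh (tow (m + 3) Y) (by omega) 3 ![(u₁ / v : ℂ), (u₂ / v : ℂ), τ]
    (MvPolynomial.X 0 + MvPolynomial.X 1 * MvPolynomial.X 2)
    (by omega) (fun i => by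
      fin_cases i
      · exact RB_rat (by omega) (hu.trans hY') hv (by omega)
      · exact RB_rat (by omega) (hu2.trans hY') hv (by omega)
      · exact hm.mono (by omega) (by omega)) ⟨?_, ?_⟩
  · rw [tow_tow] at h1
    have h2 : (MvPolynomial.aeval ![(u₁ / v : ℂ), (u₂ / v : ℂ), τ])
        (MvPolynomial.X 0 + MvPolynomial.X 1 * MvPolynomial.X 2 : MvPolynomial (Fin 3) ℤ) =
        (u₁ + u₂ * τ) / v := by
      simp
      ring
    rwa [h2] at h1
  · refine (MvPolynomial.totalDegree_add _ _).trans (max_le ?_ ?_)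
    · rw [MvPolynomial.totalDegree_X]
      omega
    · refine (MvPolynomial.totalDegree_mul _ _).trans ?_
      rw [MvPolynomial.totalDegree_X, MvPolynomial.totalDegree_X]
      omega
  · classical
    have e1 : (MvPolynomial.X 1 * MvPolynomial.X 2 : MvPolynomial (Fin 3) ℤ) =
      MvPolynomial.monomial (Finsupp.single 1 1 + Finsupp.single 2 1) 1 := by
        rw [← one_mul (1 : ℤ), ← MvPolynomial.monomial_mul]
        rfl
    have e2 : (MvPolynomial.X 0 : MvPolynomial (Fin 3) ℤ) =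
      MvPolynomial.monomial (Finsupp.single 0 1) 1 := rfl
    rw [e1, e2]
    have hsup : (MvPolynomial.monomial (Finsupp.single 0 1) (1 : ℤ) +
        MvPolynomial.monomial (Finsupp.single 1 1 + Finsupp.single 2 1) 1 :
        MvPolynomial (Fin 3) ℤ).support ⊆ {Finsupp.single 0 1, Finsupp.single 1 1 + Finsupp.single 2 1} := by
      refine MvPolynomial.support_add.trans ?_
      refine Finset.union_subset ?_ ?_
      · refine MvPolynomial.support_monomial_subset.trans ?_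
        simp
      · refine MvPolynomial.support_monomial_subset.trans ?_
        simp
    refine (Finset.sum_le_sum_of_subset_of_nonneg hsup fun _ _ _ => abs_nonneg _).trans ?_
    have hc : ∀ d : Fin 3 →₀ ℕ, |MvPolynomial.coeff d (MvPolynomial.monomial (Finsupp.single 0 1) (1 : ℤ) +
        MvPolynomial.monomial (Finsupp.single 1 1 + Finsupp.single 2 1) 1)| ≤ 2 := by
      intro d
      rw [MvPolynomial.coeff_add, MvPolynomial.coeff_monomial, MvPolynomial.coeff_monomial]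
      refine (abs_add_le _ _).trans ?_
      split_ifs <;> simp
    refine (Finset.sum_le_sum fun d _ => hc d).trans ?_
    rw [Finset.sum_const, nsmul_eq_mul]
    have h5 : (({Finsupp.single 0 1, Finsupp.single 1 1 + Finsupp.single 2 1} :
        Finset (Fin 3 →₀ ℕ)).card : ℤ) ≤ 2 := by exact_mod_cast Finset.card_le_two
    have h6 : (4 : ℤ) ≤ (tow (m + 3) Y : ℕ) := by exact_mod_cast (by omega)
    linarith

/-- the three functions -/
noncomputable def fam2 (L : PeriodPair) (w : ℂ) : Fin 3 ⊕ Fin 0 → ℂ :=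
  Sum.elim ![w, (L.ω₁ ^ 4)⁻¹ * EG 4 w, (L.ω₁ ^ 6)⁻¹ * EG 6 w] (fun k => k.elim0)

theorem fam2_eq (L : PeriodPair) (z : ℂ) :
    fam2 L (z * (L.ω₂ / L.ω₁)) = fam L (fun k : Fin 0 => k.elim0) (fun k : Fin 0 => k.elim0) z := by
  funext i
  rcases i with i | k
  · rfl
  · exact k.elim0

theorem fam2_an (hH : S_HOL) (L : PeriodPair) (i : Fin 3 ⊕ Fin 0) {w : ℂ} (hw : w.im ≠ 0) :
    AnalyticAt ℂ (fun w => fam2 L w i) w := by
  rcases i with i | k
  · fin_cases i
    · exact analyticAt_id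
    · exact analyticAt_const.mul (EG_an hH (by norm_num) (by decide) hw)
    · exact analyticAt_const.mul (EG_an hH (by norm_num) (by decide) hw)
  · exact k.elim0

theorem poly2_an (hH : S_HOL) (L : PeriodPair)
    (P : MvPolynomial (Fin 3 ⊕ Fin 0) ℤ) {w : ℂ} (hw : w.im ≠ 0) :
    AnalyticAt ℂ (fun w => MvPolynomial.aeval (fam2 L w) P) w := by
  induction P using MvPolynomial.induction_on with
  | C a => simpa using analyticAt_const
  | add p q hp hq =>
    have h := hp.add hq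
    refine h.congr (Filter.Eventually.of_forall fun z => ?_)
    simp
  | mul_X p i hp =>
    have h := hp.mul (fam2_an hH L i hw)
    refine h.congr (Filter.Eventually.of_forall fun z => ?_)
    simp

/-- the lattice `ℤ ω₁ + ℤ (u₁ ω₁ + u ω₂) / v` -/
noncomputable def stretch2 (L : PeriodPair) (a b : ℝ) (hb : b ≠ 0) : PeriodPair where
  ω₁ := L.ω₁
  ω₂ := a * L.ω₁ + b * L.ω₂
  indep := by
    have h := LinearIndependent.pair_iff.1 L.indep
    rw [LinearIndependent.pair_iff]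
    intro c d hcd
    have h1 := h (c + d * a) (d * b) (by
      rw [← hcd]
      simp only [Complex.real_smul]
      push_cast
      ring)
    have h2 : d = 0 := (mul_eq_zero.1 h1.2).resolve_right hb
    refine ⟨?_, h2⟩
    have := h1.1
    rw [h2] at this
    simpa using this

/-- sizes at the rational points -/
theorem fam2_size (hC : S_CLOS) (hA : S_ALG2) (hG : S_GE) (hH : S_HOL) (L : PeriodPair)
    (h2 : IsAlgebraic ℚ L.g₂) (h3 : IsAlgebraic ℚ L.g₃) (hτ : IsAlgebraic ℚ (L.ω₂ / L.ω₁)) :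
    ∃ h : ℕ, ∀ Y : ℕ, 2 ≤ Y → ∀ (u₁ u₂ : ℤ) (v : ℕ), u₂ ≠ 0 →
      |u₁| ≤ Y → |u₂| ≤ Y → 1 ≤ v → v ≤ Y → ∀ i, RB (tow h Y) (tow h Y)
        (fam2 L ((u₁ + u₂ * (L.ω₂ / L.ω₁)) / v) i) := by
  have hmono : ∀ {h h' Y : ℕ} {a : ℂ}, h ≤ h' → RB (tow h Y) (tow h Y) a →
      RB (tow h' Y) (tow h' Y) a := fun hh ha => ha.mono (tow_mono_left hh _) (tow_mono_left hh _)
  obtain ⟨h0, hh0⟩ := size_tau2 hC hτ
  obtain ⟨h1, hh1⟩ := hA L h2 h3
  refine ⟨h0 + h1, fun Y hY u₁ u₂ v hu2 hu1Y hu2Y hv hvY i => ?_⟩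
  have hω := ω₁_ne L
  have hv0 : (v : ℂ) ≠ 0 := by exact_mod_cast (by omega : v ≠ 0)
  -- the sign
  obtain ⟨ε, hε, hεu⟩ : ∃ ε : ℤ, (ε = 1 ∨ ε = -1) ∧ u₂ = ε * u₂.natAbs := by
    rcases Int.natAbs_eq u₂ with h | h
    · exact ⟨1, Or.inl rfl, by omega⟩
    · exact ⟨-1, Or.inr rfl, by omega⟩
  have h4 : (u₂.natAbs : ℝ) ≠ 0 := by exact_mod_cast Int.natAbs_ne_zero.2 hu2
  have h5 : (v : ℝ) ≠ 0 := by exact_mod_cast (by omega : v ≠ 0)
  set L'' := stretch2 L ((ε * u₁ : ℤ) / v) ((u₂.natAbs : ℝ) / v) (div_ne_zero h4 h5) with hL''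
  have hab : u₂.natAbs ≤ Y := by
    have h4 : (u₂.natAbs : ℤ) ≤ Y := by rwa [Int.natCast_natAbs]
    exact_mod_cast h4
  have hab1 : 1 ≤ u₂.natAbs := Nat.one_le_iff_ne_zero.2 (Int.natAbs_ne_zero.2 hu2)
  have huc : (u₂ : ℂ) = ε * (u₂.natAbs : ℂ) := by
    have h6 := congrArg (fun z : ℤ => (z : ℂ)) hεu
    simpa only [Int.cast_mul, Int.cast_natCast] using h6
  have hε2 : (ε : ℂ) * ε = 1 := by rcases hε with rfl | rfl <;> simp
  have e1 : L''.ω₁ = L.ω₁ := rfl
  have e2 : L''.ω₂ = ((ε * u₁ : ℤ) * L.ω₁ + u₂.natAbs * L.ω₂) / v := by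
    change ((((ε * u₁ : ℤ) / v : ℝ) : ℂ) * L.ω₁ + (((u₂.natAbs : ℝ) / v : ℝ) : ℂ) * L.ω₂) = _
    push_cast
    field_simp
  have hε1 : |ε * u₁| ≤ Y := by
    rcases hε with rfl | rfl <;> simpa using hu1Y
  have hL2 := hh1 Y hY (ε * u₁) u₂.natAbs v L'' hε1 hab1 hab hv hvY e1 e2
  have hz : (u₁ + u₂ * (L.ω₂ / L.ω₁)) / v = ε * (L''.ω₂ / L''.ω₁) := by
    rw [e1, e2, huc]
    push_cast
    field_simp
    linear_combination (-(L.ω₁ * u₁)) * hε2
  have hstr : ∀ k : ℕ, 3 ≤ k → Even k →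
      (L.ω₁ ^ k)⁻¹ * EG k ((u₁ + u₂ * (L.ω₂ / L.ω₁)) / v) = L''.G k := by
    intro k hk hek
    rw [hG L'', hz, e1]
    congr 1
    rcases hε with rfl | rfl
    · simp
    · rw [← (hH k hk).2 hek (L''.ω₂ / L.ω₁)]
      congr 1
      push_cast
      ring
  rcases i with i | k
  · fin_cases i
    · exact hmono (by omega) (hh0 Y hY u₁ u₂ v hu1Y hu2Y hv hvY)
    · change RB _ _ ((L.ω₁ ^ 4)⁻¹ * EG 4 ((u₁ + u₂ * (L.ω₂ / L.ω₁)) / v))
      rw [hstr 4 (by norm_num) (by decide)]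
      exact hmono (by omega) hL2.1
    · change RB _ _ ((L.ω₁ ^ 6)⁻¹ * EG 6 ((u₁ + u₂ * (L.ω₂ / L.ω₁)) / v))
      rw [hstr 6 (by norm_num) (by decide)]
      exact hmono (by omega) hL2.2
  · exact k.elim0

theorem main2 (hT : S_TRA2) (hC : S_CLOS) (hA : S_ALG2) (hG : S_GE) (hH : S_HOL)
    (hI : S_IND) (hq : ∀ i, 2 ≤ q i) (L : PeriodPair)
    (h2 : IsAlgebraic ℚ L.g₂) (h3 : IsAlgebraic ℚ L.g₃) (hτ : IsAlgebraic ℚ (L.ω₂ / L.ω₁))
    (a b : ℝ) (ha : RAppr q a) (hb : RAppr q b) (hb0 : b ≠ 0) (hirr : Irrational a ∨ Irrational b) :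
    (∀ i, Appr q (fam2 L (a + b * (L.ω₂ / L.ω₁)) i)) ∧
      AlgebraicIndependent ℚ (fam2 L (a + b * (L.ω₂ / L.ω₁))) := by
  set τ := L.ω₂ / L.ω₁ with hτd
  obtain ⟨h, hh⟩ := fam2_size hC hA hG hH L h2 h3 hτ
  let e : Fin (3 + 0) ≃ Fin 3 ⊕ Fin 0 := finSumFinEquiv.symm
  have him : ((a : ℂ) + b * τ).im ≠ 0 := by
    rw [Complex.add_im, Complex.ofReal_im, zero_add, Complex.im_ofReal_mul]
    exact mul_ne_zero hb0 (ratio_im L)
  obtain ⟨hap, hrel⟩ := hT q hq a b ha hb hirr τ (ratio_im L) (3 + 0) (fun i w => fam2 L w (e i))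
    (fun i => fam2_an hH L (e i) him)
    ⟨h, |b|, abs_pos.2 hb0, fun Y hY u₁ u₂ v hu1 hu2 hv hvY _ hlt i => hh Y hY u₁ u₂ v (by
      rintro rfl
      simp at hlt) hu1 hu2 hv hvY (e i)⟩
  refine ⟨fun i => by simpa using hap (e.symm i), ?_⟩
  -- integral relations
  have hint : ∀ P : MvPolynomial (Fin 3 ⊕ Fin 0) ℤ,
      MvPolynomial.aeval (fam2 L (a + b * τ)) P = 0 → P = 0 := by
    intro P hP
    have hfreq := hrel (MvPolynomial.rename e.symm P) (by
      rw [MvPolynomial.aeval_rename]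
      convert hP using 3
      funext i
      simp)
    have hfreq' : ∃ᶠ w in 𝓝[≠] ((a : ℂ) + b * τ), MvPolynomial.aeval (fam2 L w) P = 0 := by
      refine hfreq.mono fun z hz => ?_
      rw [MvPolynomial.aeval_rename] at hz
      convert hz using 3
      funext i
      simp
    -- the half plane
    obtain ⟨σ, hσ, hσx⟩ : ∃ σ : ℤ, (σ = 1 ∨ σ = -1) ∧ 0 < (σ * ((a : ℂ) + b * τ)).im := by
      rcases lt_or_gt_of_ne him with h | h
      · exact ⟨-1, Or.inr rfl, by simpa using h⟩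
      · exact ⟨1, Or.inl rfl, by simpa using h⟩
    let U : Set ℂ := {w | 0 < (σ * w).im}
    have hU : IsPreconnected U := by
      refine (convex_halfSpace_gt (𝕜 := ℝ) (f := fun w : ℂ => (σ * w).im) ⟨?_, ?_⟩
        0).isPreconnected
      · intro a b
        rw [mul_add, Complex.add_im]
      · intro r a
        rw [Complex.real_smul, mul_left_comm, Complex.im_ofReal_mul, smul_eq_mul]
    have hUan : AnalyticOnNhd ℂ (fun w => MvPolynomial.aeval (fam2 L w) P) U := by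
      intro w hw
      refine poly2_an hH L P ?_
      intro h0
      have hw' : 0 < (σ * w).im := hw
      rw [show (σ : ℂ) * w = ((σ : ℝ) : ℂ) * w by push_cast; ring, Complex.im_ofReal_mul,
        h0, mul_zero] at hw'
      exact lt_irrefl _ hw'
    have hzero := hUan.eqOn_zero_of_preconnected_of_frequently_eq_zero hU hσx hfreq'
    refine indep_fun hH hI L hτ (fun k : Fin 0 => k.elim0) (fun k : Fin 0 => k.elim0)
      (fun k => k.elim0) linearIndependent_empty_type P σ hσ fun z hz => ?_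
    rw [← fam2_eq]
    refine hzero ?_
    change 0 < (σ * (z * τ)).im
    convert hz using 2
    ring
  rw [algebraicIndependent_iff]
  intro P hP
  obtain ⟨d, hd, P', hP'⟩ := clear_rat P
  have h0 := hint P' (by rw [hP', hP, mul_zero])
  -- all values of `P` vanish
  refine MvPolynomial.funext fun r => ?_
  have h5 := hP' (fun i => algebraMap ℚ ℂ (r i))
  rw [h0, map_zero] at h5
  have h6 : MvPolynomial.aeval (fun i => algebraMap ℚ ℂ (r i)) P = 0 :=
    ((mul_eq_zero.1 h5.symm).resolve_left (by exact_mod_cast hd))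
  rw [show (fun i => algebraMap ℚ ℂ (r i)) = algebraMap ℚ ℂ ∘ r from rfl,
    MvPolynomial.aeval_algebraMap_apply] at h6
  have h7 := (map_eq_zero (algebraMap ℚ ℂ)).1 h6
  simpa [MvPolynomial.aeval_eq_eval] using h7

end Pool.Agent.P8H10.ET
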