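import Pool.Agent.P8H10.ET.StmF
import Pool.Agent.P8H10.ET.Main

/-!
# Project ET, one point of the curve: assembly
-/

set_option autoImplicit false

open Filter Topology Pool.Agent.R347.LW Pool.Agent.P8H10.KM
open scoped PeriodPair

namespace Pool.Agent.P8H10.ET

variable {q : ℕ → ℕ}

theorem off_neg {z τ : ℂ} : Off z (-τ) ↔ Off z τ := by
  unfold Off
  constructor
  · intro h m n he
    refine h m (-n) ?_
    rw [he]
    push_cast
    ring
  · intro h m n he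
    refine h m (-n) ?_
    rw [he]
    push_cast
    ring

theorem off_real {r : ℝ} (hr : ∀ m : ℤ, r ≠ m) {τ : ℂ} (hτ : τ.im ≠ 0) : Off (r : ℂ) τ := by
  intro m n he
  have h1 := congrArg Complex.im he
  simp only [Complex.ofReal_im, Complex.add_im, Complex.intCast_im, Complex.mul_im,
    Complex.intCast_re, zero_mul, add_zero, zero_add] at h1
  have hn : (n : ℝ) = 0 := (mul_eq_zero.1 h1.symm).resolve_right hτ
  have hn' : (n : ℂ) = 0 := by exact_mod_cast hn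
  rw [hn', zero_mul, add_zero] at he
  exact hr m (by exact_mod_cast he)

/-- `Off` for the point `a + b τ₀` and the ratio `y τ₀` -/
theorem off_of {τ₀ : ℂ} (hτ : τ₀.im ≠ 0) {a b : ℚ} {y : ℝ} (h : ∀ n : ℤ, (b : ℝ) ≠ n * y) :
    Off (a + b * τ₀) (y * τ₀) := by
  intro m n he
  have h1 := congrArg Complex.im he
  have h2 : ((b : ℝ) - n * y) * τ₀.im = 0 := by
    have e1 : ((a : ℂ) + b * τ₀).im = (b : ℝ) * τ₀.im := by
      rw [Complex.add_im]
      simp
    have e2 : ((m : ℂ) + n * (y * τ₀)).im = (n : ℝ) * y * τ₀.im := by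
      rw [Complex.add_im]
      simp [Complex.mul_im]
      ring
    rw [e1, e2] at h1
    rw [sub_mul, h1, sub_self]
  exact h n (sub_eq_zero.1 ((mul_eq_zero.1 h2).resolve_right hτ))

theorem off_irr {τ₀ : ℂ} (hτ : τ₀.im ≠ 0) {a b : ℚ} (hb : b ≠ 0) {x : ℝ} (hx : Irrational x) (n : ℤ) :
    (b : ℝ) ≠ n * x := by
  intro he
  by_cases hn : n = 0
  · subst hn
    simp at he
    exact hb he
  · apply hx
    refine ⟨b / n, ?_⟩
    have hn' : (n : ℝ) ≠ 0 := by exact_mod_cast hn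
    push_cast
    rw [he, mul_div_cancel_left₀ _ hn']

/-- near an irrational number -/
theorem off_near {b : ℚ} {x : ℝ} (hx0 : x ≠ 0) (h : ∀ n : ℤ, (b : ℝ) ≠ n * x) :
    ∀ᶠ y in 𝓝 x, ∀ n : ℤ, (b : ℝ) ≠ n * y := by
  obtain ⟨N, hN⟩ := exists_nat_gt (|(b : ℝ)| * 2 / |x|)
  have hx' : 0 < |x| := abs_pos.2 hx0
  have h1 : ∀ᶠ y in 𝓝 x, ∀ n ∈ Finset.Icc (-(N : ℤ)) N, (b : ℝ) ≠ n * y := by
    rw [Filter.eventually_all_finset]
    intro n _
    have hc : ContinuousAt (fun y : ℝ => (n : ℝ) * y) x := by fun_prop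
    exact (hc.eventually_ne (h n).symm).mono fun y hy => hy.symm
  have h2 : ∀ᶠ y in 𝓝 x, |x| / 2 < |y| := by
    have hc : ContinuousAt (fun y : ℝ => |y|) x := by fun_prop
    exact hc.eventually_const_lt (by linarith)
  filter_upwards [h1, h2] with y hy1 hy2 n
  by_cases hn : n ∈ Finset.Icc (-(N : ℤ)) N
  · exact hy1 n hn
  · intro he
    have h3 : (N : ℝ) < |(n : ℝ)| := by
      rw [Finset.mem_Icc, ← abs_le, not_le] at hn
      exact_mod_cast hn
    have h4 : |(b : ℝ)| = |(n : ℝ)| * |y| := by rw [he, abs_mul]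
    have h5 : |(b : ℝ)| * 2 / |x| < |(n : ℝ)| := hN.trans h3
    rw [div_lt_iff₀ hx'] at h5
    rw [h4] at h5
    have h6 : 0 < |(n : ℝ)| := lt_of_le_of_lt (Nat.cast_nonneg N) h3
    nlinarith

/-- the functions -/
noncomputable def fam3 (L : PeriodPair) (κ z₀ : ℂ) {s : ℕ} (l l' : Fin s → ℂ) (z : ℂ) :
    Fin 5 ⊕ Fin s → ℂ :=
  Sum.elim ![z * (L.ω₂ / L.ω₁), (L.ω₁ ^ 4)⁻¹ * EG 4 (z * (L.ω₂ / L.ω₁)),
    (L.ω₁ ^ 6)⁻¹ * EG 6 (z * (L.ω₂ / L.ω₁)), (L.ω₁ ^ 2)⁻¹ * z * EH (z * (L.ω₂ / L.ω₁)) - κ,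
    (L.ω₁ ^ 2)⁻¹ * EP z₀ (z * (L.ω₂ / L.ω₁))] (fun k => Complex.exp (z * l k + l' k))

theorem EH_an (hN : S_ANE) {τ : ℂ} (hτ : τ.im ≠ 0) : AnalyticAt ℂ EH τ := by
  have h1 : Off (1 / 2 + 1 : ℂ) τ := by
    have := off_real (r := 1 / 2 + 1) (fun m he => by
      have h3 : (3 : ℝ) = ((2 * m : ℤ) : ℝ) := by push_cast; linarith
      have h4 : (3 : ℤ) = 2 * m := by exact_mod_cast h3
      omega) hτ
    simpa using this
  have h2 : Off (1 / 2 : ℂ) τ := by
    have := off_real (r := 1 / 2) (fun m he => by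
      have h3 : (1 : ℝ) = ((2 * m : ℤ) : ℝ) := by push_cast; linarith
      have h4 : (1 : ℤ) = 2 * m := by exact_mod_cast h3
      omega) hτ
    simpa using this
  exact (hN _ τ hτ h1).2.sub (hN _ τ hτ h2).2

theorem fam3_an (hH : S_HOL) (hN : S_ANE) (L : PeriodPair) (κ z₀ : ℂ) {s : ℕ} (l l' : Fin s → ℂ)
    (i : Fin 5 ⊕ Fin s) {z : ℂ} (hz : (z * (L.ω₂ / L.ω₁)).im ≠ 0)
    (hoff : Off z₀ (z * (L.ω₂ / L.ω₁))) : AnalyticAt ℂ (fun z => fam3 L κ z₀ l l' z i) z := by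
  have h0 : AnalyticAt ℂ (fun z : ℂ => z * (L.ω₂ / L.ω₁)) z := analyticAt_id.mul analyticAt_const
  rcases i with i | k
  · fin_cases i
    · exact h0
    · have h1 : AnalyticAt ℂ (fun z : ℂ => EG 4 (z * (L.ω₂ / L.ω₁))) z :=
        AnalyticAt.comp' (g := EG 4) (f := fun z : ℂ => z * (L.ω₂ / L.ω₁))
          (EG_an hH (by norm_num) (by decide) hz) h0
      exact analyticAt_const.mul h1
    · have h1 : AnalyticAt ℂ (fun z : ℂ => EG 6 (z * (L.ω₂ / L.ω₁))) z :=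
        AnalyticAt.comp' (g := EG 6) (f := fun z : ℂ => z * (L.ω₂ / L.ω₁))
          (EG_an hH (by norm_num) (by decide) hz) h0
      exact analyticAt_const.mul h1
    · have h1 : AnalyticAt ℂ (fun z : ℂ => EH (z * (L.ω₂ / L.ω₁))) z :=
        AnalyticAt.comp' (g := EH) (f := fun z : ℂ => z * (L.ω₂ / L.ω₁)) (EH_an hN hz) h0
      exact ((analyticAt_const.mul analyticAt_id).mul h1).sub analyticAt_const
    · have h1 : AnalyticAt ℂ (fun z : ℂ => EP z₀ (z * (L.ω₂ / L.ω₁))) z :=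
        AnalyticAt.comp' (g := fun τ => EP z₀ τ) (f := fun z : ℂ => z * (L.ω₂ / L.ω₁))
          (hN _ _ hz hoff).1 h0
      exact analyticAt_const.mul h1
  · exact ((analyticAt_id.mul analyticAt_const).add analyticAt_const).cexp

/-- polynomials in the functions -/
theorem poly3_an (hH : S_HOL) (hN : S_ANE) (L : PeriodPair) (κ z₀ : ℂ) {s : ℕ} (l l' : Fin s → ℂ)
    (P : MvPolynomial (Fin 5 ⊕ Fin s) ℤ) {z : ℂ} (hz : (z * (L.ω₂ / L.ω₁)).im ≠ 0)
    (hoff : Off z₀ (z * (L.ω₂ / L.ω₁))) :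
    AnalyticAt ℂ (fun z => MvPolynomial.aeval (fam3 L κ z₀ l l' z) P) z := by
  induction P using MvPolynomial.induction_on with
  | C a => simpa using analyticAt_const
  | add p q hp hq =>
    have h := hp.add hq
    refine h.congr (Filter.Eventually.of_forall fun z => ?_)
    simp
  | mul_X p i hp =>
    have h := hp.mul (fam3_an hH hN L κ z₀ l l' i hz hoff)
    refine h.congr (Filter.Eventually.of_forall fun z => ?_)
    simp

theorem RB_neg {d N : ℕ} {a : ℂ} (h : RB d N a) : RB d N (-a) := by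
  obtain ⟨P, hP, hd, hN, ha⟩ := h
  refine ⟨P.comp (-Polynomial.X), ?_, ?_, fun n => ?_, ?_⟩
  · intro h0
    apply hP
    have h1 := congrArg (fun Q : Polynomial ℤ => Q.comp (-Polynomial.X)) h0
    simpa [Polynomial.comp_assoc] using h1
  · rw [Polynomial.natDegree_comp]
    simpa using hd
  · have h1 : (P.comp (-Polynomial.X)).coeff n = (-1) ^ n * P.coeff n := by
      have h2 : (-Polynomial.X : Polynomial ℤ) = Polynomial.C (-1) * Polynomial.X := by simp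
      rw [h2, Polynomial.comp_C_mul_X_coeff]
      ring
    rw [h1, abs_mul, abs_pow, abs_neg, abs_one, one_pow, one_mul]
    exact hN n
  · simpa [Polynomial.aeval_comp] using ha

/-- sizes at the rational points -/
theorem fam3_size (hC : S_CLOS) (hE : S_EXB) (hA : S_ALG) (hG : S_GE) (hH : S_HOL) (hP : S_GP)
    (hS : S_SIZ) (L : PeriodPair)
    (h2 : IsAlgebraic ℚ L.g₂) (h3 : IsAlgebraic ℚ L.g₃) (hτ : IsAlgebraic ℚ (L.ω₂ / L.ω₁))
    (a b : ℚ) {s : ℕ} (l l' : Fin s → ℂ) (hl : ∀ k, IsAlgebraic ℚ (Complex.exp (l k)))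
    (hl' : ∀ k, IsAlgebraic ℚ (Complex.exp (l' k))) : ∃ h : ℕ, ∀ Y : ℕ, 2 ≤ Y → ∀ (u : ℤ) (v : ℕ),
    u ≠ 0 → |u| ≤ Y → 1 ≤ v → v ≤ Y → (∀ n : ℤ, (b : ℝ) ≠ n * (u / v : ℝ)) →
    ∀ ε : ℤ, (ε = 1 ∨ ε = -1) → u = ε * u.natAbs → ∀ i, RB (tow h Y) (tow h Y)
      (fam3 L (ε * (H667R3.eta L L.ω₁ / L.ω₁)) (a + b * (L.ω₂ / L.ω₁)) l l' (u / v : ℂ) i) := by
  have hmono : ∀ {h h' Y : ℕ} {a : ℂ}, h ≤ h' → RB (tow h Y) (tow h Y) a →
      RB (tow h' Y) (tow h' Y) a := fun hh ha => ha.mono (tow_mono_left hh _) (tow_mono_left hh _)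
  obtain ⟨h0, hh0⟩ := fam_size hC hE hA hG hH L h2 h3 hτ l l' hl hl'
  obtain ⟨h1, hh1⟩ := hS L h2 h3 a b
  refine ⟨h0 + h1, fun Y hY u v hu huY hv hvY hb ε hε huε i => ?_⟩
  have hω := ω₁_ne L
  have h4 : (u.natAbs : ℝ) ≠ 0 := by exact_mod_cast Int.natAbs_ne_zero.2 hu
  have h5 : (v : ℝ) ≠ 0 := by exact_mod_cast (by omega : v ≠ 0)
  set L'' := stretch L ((u.natAbs : ℝ) / v) (div_ne_zero h4 h5) with hL''
  have hab : u.natAbs ≤ Y := by
    have h4 : (u.natAbs : ℤ) ≤ Y := by rwa [Int.natCast_natAbs]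
    exact_mod_cast h4
  have hab1 : 1 ≤ u.natAbs := Nat.one_le_iff_ne_zero.2 (Int.natAbs_ne_zero.2 hu)
  have e1 : L''.ω₁ = L.ω₁ := rfl
  have e2 : L''.ω₂ = (u.natAbs / v : ℂ) * L.ω₂ := by
    change ((((u.natAbs : ℝ) / v : ℝ) : ℂ) * L.ω₂) = _
    push_cast
    rfl
  have huc : (u : ℂ) = ε * (u.natAbs : ℂ) := by
    have h6 := congrArg (fun z : ℤ => (z : ℂ)) huε
    simpa only [Int.cast_mul, Int.cast_natCast] using h6
  have hur : (u : ℝ) = ε * (u.natAbs : ℝ) := by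
    have h6 := congrArg (fun z : ℤ => (z : ℝ)) huε
    simpa only [Int.cast_mul, Int.cast_natCast] using h6
  have hε2 : (ε : ℂ) * ε = 1 := by rcases hε with rfl | rfl <;> simp
  have hoff : Off (a + b * (L.ω₂ / L.ω₁)) ((((u.natAbs : ℝ) / v : ℝ) : ℂ) * (L.ω₂ / L.ω₁)) := by
    refine off_of (ratio_im L) fun n he => hb (ε * n) ?_
    rw [he, hur]
    push_cast
    have hε2' : (ε : ℝ) * ε = 1 := by exact_mod_cast hε2
    linear_combination (-(n : ℝ) * ((u.natAbs : ℝ) / v)) * hε2'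
  have hp : (a * L.ω₁ + b * L.ω₂ : ℂ) ∉ L''.lattice := by
    intro hmem
    obtain ⟨m, n, hmn⟩ := PeriodPair.mem_lattice.1 hmem
    apply hoff m n
    have e3 : (L''.ω₂ : ℂ) = (((u.natAbs : ℝ) / v : ℝ) : ℂ) * L.ω₂ := rfl
    rw [e1, e3] at hmn
    have e4 : ((a : ℂ) + b * (L.ω₂ / L.ω₁)) * L.ω₁ = a * L.ω₁ + b * L.ω₂ := by
      field_simp
    have e5 : ((m : ℂ) + n * ((((u.natAbs : ℝ) / v : ℝ) : ℂ) * (L.ω₂ / L.ω₁))) * L.ω₁ =
        m * L.ω₁ + n * ((((u.natAbs : ℝ) / v : ℝ) : ℂ) * L.ω₂) := by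
      field_simp
    refine mul_right_cancel₀ hω ?_
    rw [e4, e5, hmn]
  obtain ⟨hs1, hs2⟩ := hh1 Y hY u.natAbs v L'' hab1 hab hv hvY e1 e2 hp
  -- the ratio
  have hrat : L''.ω₂ / L''.ω₁ = (u.natAbs / v : ℂ) * (L.ω₂ / L.ω₁) := by
    rw [e1, e2]
    ring
  have hz : (u / v : ℂ) * (L.ω₂ / L.ω₁) = ε * (L''.ω₂ / L''.ω₁) := by
    rw [hrat, huc]
    ring
  have hEP : EP (a + b * (L.ω₂ / L.ω₁)) ((u / v : ℂ) * (L.ω₂ / L.ω₁)) =
      EP (a + b * (L.ω₂ / L.ω₁)) (L''.ω₂ / L''.ω₁) := by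
    rw [hz]
    rcases hε with rfl | rfl
    · simp
    · rw [← hP.2.2.1 _ (L''.ω₂ / L''.ω₁)]
      congr 1
      push_cast
      ring
  have hEH : EH ((u / v : ℂ) * (L.ω₂ / L.ω₁)) = EH (L''.ω₂ / L''.ω₁) := by
    rw [hz]
    rcases hε with rfl | rfl
    · simp
    · rw [← hP.2.2.2 (L''.ω₂ / L''.ω₁)]
      congr 1
      push_cast
      ring
  rcases i with i | k
  · fin_cases i
    · exact hmono (by omega) (hh0 Y hY u v hu huY hv hvY (Sum.inl 0))
    · exact hmono (by omega) (hh0 Y hY u v hu huY hv hvY (Sum.inl 1))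
    · exact hmono (by omega) (hh0 Y hY u v hu huY hv hvY (Sum.inl 2))
    · change RB _ _ ((L.ω₁ ^ 2)⁻¹ * (u / v : ℂ) * EH ((u / v : ℂ) * (L.ω₂ / L.ω₁)) -
        (ε * (H667R3.eta L L.ω₁ / L.ω₁)))
      have e6 : (L.ω₁ ^ 2)⁻¹ * (u / v : ℂ) * EH ((u / v : ℂ) * (L.ω₂ / L.ω₁)) -
          (ε * (H667R3.eta L L.ω₁ / L.ω₁)) = ε * (((u.natAbs / v : ℂ) * H667R3.eta L'' L''.ω₁ -
            H667R3.eta L L.ω₁) / L.ω₁) := by
        rw [hEH, hP.2.1 L'', huc, e1]
        field_simp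
      rw [e6]
      rcases hε with rfl | rfl
      · have := hmono (show h1 ≤ h0 + h1 by omega) hs2
        simpa using this
      · have := RB_neg (hmono (show h1 ≤ h0 + h1 by omega) hs2)
        simpa using this
    · change RB _ _ ((L.ω₁ ^ 2)⁻¹ * EP (a + b * (L.ω₂ / L.ω₁)) ((u / v : ℂ) * (L.ω₂ / L.ω₁)))
      have e6 : (L.ω₁ ^ 2)⁻¹ * EP (a + b * (L.ω₂ / L.ω₁)) ((u / v : ℂ) * (L.ω₂ / L.ω₁)) =
          ℘[L''] (a * L.ω₁ + b * L.ω₂) := by
        rw [hEP, hP.1 L'', e1]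
        congr 2
        field_simp
      rw [e6]
      exact hmono (by omega) hs1
  · exact hmono (by omega) (hh0 Y hY u v hu huY hv hvY (Sum.inr k))

/-- independence of the functions, for both half planes -/
theorem indep_fun3 (hH : S_HOL) (hP : S_GP) (hI : S_IND3) (L : PeriodPair)
    (hτ : IsAlgebraic ℚ (L.ω₂ / L.ω₁)) (κ : ℂ) {z₀ : ℂ} (hz₀ : z₀.im ≠ 0)
    {s : ℕ} (l l' : Fin s → ℂ) (hl : ∀ k, IsAlgebraic ℚ (Complex.exp (l k)))
    (hli : LinearIndependent ℚ l) (P : MvPolynomial (Fin 5 ⊕ Fin s) ℤ) (σ : ℤ) (hσ : σ = 1 ∨ σ = -1)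
    (h : ∀ z : ℂ, 0 < (z * (σ * (L.ω₂ / L.ω₁))).im → Off z₀ (z * (σ * (L.ω₂ / L.ω₁))) →
      MvPolynomial.aeval (fam3 L κ z₀ l l' z) P = 0) :
    P = 0 := by
  set τ := L.ω₂ / L.ω₁ with hτd
  have hσ2 : (σ : ℂ) * σ = 1 := by rcases hσ with rfl | rfl <;> simp
  set φ : MvPolynomial (Fin 5 ⊕ Fin s) ℤ →ₐ[ℤ] MvPolynomial (Fin 5 ⊕ Fin s) ℤ :=
    MvPolynomial.aeval (Sum.elim ![MvPolynomial.C σ * MvPolynomial.X (Sum.inl 0),
      MvPolynomial.X (Sum.inl 1), MvPolynomial.X (Sum.inl 2), MvPolynomial.X (Sum.inl 3),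
      MvPolynomial.X (Sum.inl 4)] fun k => MvPolynomial.X (Sum.inr k))
    with hφ
  have hφφ : φ (φ P) = P := by
    have h1 : φ.comp φ = AlgHom.id ℤ _ := by
      refine MvPolynomial.algHom_ext fun i => ?_
      rcases i with i | k
      · fin_cases i
        · simp only [hφ, AlgHom.comp_apply, MvPolynomial.aeval_X, AlgHom.id_apply]
          simp only [Fin.zero_eta, Fin.isValue, Sum.elim_inl, Matrix.cons_val_zero, map_mul,
            MvPolynomial.aeval_X]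
          rw [← MvPolynomial.algebraMap_eq, AlgHom.commutes, MvPolynomial.algebraMap_eq,
            ← mul_assoc, ← MvPolynomial.C_mul]
          rcases hσ with rfl | rfl <;> simp
        · simp [hφ]
        · simp [hφ]
        · simp [hφ]
        · simp [hφ]
      · simp [hφ]
    exact congrArg (fun f => f P) h1
  have h0 : φ P = 0 := by
    refine hI (σ * τ) ?_ ?_ z₀ hz₀ s l l' hl hli (L.ω₁ ^ 4)⁻¹ (L.ω₁ ^ 6)⁻¹ (L.ω₁ ^ 2)⁻¹ (L.ω₁ ^ 2)⁻¹ κ
      (inv_ne_zero (pow_ne_zero _ (ω₁_ne L))) (inv_ne_zero (pow_ne_zero _ (ω₁_ne L)))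
      (inv_ne_zero (pow_ne_zero _ (ω₁_ne L))) (inv_ne_zero (pow_ne_zero _ (ω₁_ne L))) _ ?_
    · exact (isAlgebraic_algebraMap (R := ℚ) (A := ℂ) (σ : ℚ)).mul hτ |> fun h => by simpa using h
    · have := ratio_im L
      rcases hσ with rfl | rfl
      · simpa using this
      · simpa using this
    · intro z hz hzo
      have h1 := h z hz hzo
      have hzτ : z * (σ * τ) = z * τ ∨ z * (σ * τ) = -(z * τ) := by
        rcases hσ with rfl | rfl
        · left; simp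
        · right; push_cast; ring
      have hev : ∀ k : ℕ, 3 ≤ k → Even k → EG k (z * (σ * τ)) = EG k (z * τ) := by
        intro k hk he
        rcases hzτ with h5 | h5
        · rw [h5]
        · rw [h5, (hH k hk).2 he]
      have hevP : EP z₀ (z * (σ * τ)) = EP z₀ (z * τ) := by
        rcases hzτ with h5 | h5
        · rw [h5]
        · rw [h5, hP.2.2.1]
      have hevH : EH (z * (σ * τ)) = EH (z * τ) := by
        rcases hzτ with h5 | h5
        · rw [h5]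
        · rw [h5, hP.2.2.2]
      have h2 : ((MvPolynomial.aeval (Sum.elim ![z * (σ * τ), (L.ω₁ ^ 4)⁻¹ * EG 4 (z * (σ * τ)),
          (L.ω₁ ^ 6)⁻¹ * EG 6 (z * (σ * τ)), (L.ω₁ ^ 2)⁻¹ * z * EH (z * (σ * τ)) - κ,
          (L.ω₁ ^ 2)⁻¹ * EP z₀ (z * (σ * τ))] (fun k => Complex.exp (z * l k + l' k))) :
          MvPolynomial (Fin 5 ⊕ Fin s) ℤ →ₐ[ℤ] ℂ).comp φ) =
          MvPolynomial.aeval (fam3 L κ z₀ l l' z) := by
        refine MvPolynomial.algHom_ext fun i => ?_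
        rcases i with i | k
        · fin_cases i
          · simp only [hφ, AlgHom.comp_apply, MvPolynomial.aeval_X, Fin.zero_eta, Fin.isValue,
              Sum.elim_inl, Matrix.cons_val_zero, map_mul, fam3]
            rw [← MvPolynomial.algebraMap_eq, AlgHom.commutes]
            simp only [algebraMap_int_eq, eq_intCast]
            linear_combination (z * τ) * hσ2
          · have e1 := hev 4 (by norm_num) (by decide)
            simp only [hφ, AlgHom.comp_apply, MvPolynomial.aeval_X, Fin.mk_one, Fin.isValue,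
              Sum.elim_inl, fam3, Matrix.cons_val]
            rw [e1]
          · have e1 := hev 6 (by norm_num) (by decide)
            simp only [hφ, AlgHom.comp_apply, MvPolynomial.aeval_X, Fin.reduceFinMk, Fin.isValue,
              Sum.elim_inl, fam3, Matrix.cons_val]
            rw [e1]
          · simp only [hφ, AlgHom.comp_apply, MvPolynomial.aeval_X, Fin.reduceFinMk, Fin.isValue,
              Sum.elim_inl, fam3, Matrix.cons_val]
            rw [hevH]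
          · simp only [hφ, AlgHom.comp_apply, MvPolynomial.aeval_X, Fin.reduceFinMk, Fin.isValue,
              Sum.elim_inl, fam3, Matrix.cons_val]
            rw [hevP]
        · simp [hφ, fam3]
      rw [← AlgHom.comp_apply, h2]
      exact h1
  rw [← hφφ, h0, map_zero]

/-- **Main theorem**: the values are approximable and algebraically independent. -/
theorem main3 (hT : S_TRA) (hC : S_CLOS) (hE : S_EXB) (hA : S_ALG) (hG : S_GE) (hH : S_HOL)
    (hN : S_ANE) (hP : S_GP) (hR : S_PRE) (hS : S_SIZ)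
    (hI : S_IND3) (hq : ∀ i, 2 ≤ q i) (L : PeriodPair)
    (h2 : IsAlgebraic ℚ L.g₂) (h3 : IsAlgebraic ℚ L.g₃) (hτ : IsAlgebraic ℚ (L.ω₂ / L.ω₁))
    (a b : ℚ) (hb : b ≠ 0)
    {s : ℕ} (l l' : Fin s → ℂ) (hl : ∀ k, IsAlgebraic ℚ (Complex.exp (l k)))
    (hl' : ∀ k, IsAlgebraic ℚ (Complex.exp (l' k))) (hli : LinearIndependent ℚ l)
    (x : ℝ) (hx : RAppr q x) (hirr : Irrational x) :
    ∃ ε : ℤ, (ε = 1 ∨ ε = -1) ∧ |x| = ε * x ∧
      (∀ i, Appr q (fam3 L (ε * (H667R3.eta L L.ω₁ / L.ω₁)) (a + b * (L.ω₂ / L.ω₁)) l l' x i)) ∧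
      AlgebraicIndependent ℚ
        (fam3 L (ε * (H667R3.eta L L.ω₁ / L.ω₁)) (a + b * (L.ω₂ / L.ω₁)) l l' x) := by
  set τ := L.ω₂ / L.ω₁ with hτd
  have hx0 : x ≠ 0 := hirr.ne_zero
  -- the sign of `x`
  obtain ⟨ε, hε, hεx⟩ : ∃ ε : ℤ, (ε = 1 ∨ ε = -1) ∧ 0 < ε * x := by
    rcases lt_or_gt_of_ne hx0 with h | h
    · exact ⟨-1, Or.inr rfl, by simpa using h⟩
    · exact ⟨1, Or.inl rfl, by simpa using h⟩
  have habs : |x| = ε * x := by
    rcases hε with rfl | rfl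
    · rw [abs_of_pos (by simpa using hεx)]; simp
    · rw [abs_of_neg (by simpa using hεx)]; simp
  refine ⟨ε, hε, habs, ?_⟩
  set κ : ℂ := ε * (H667R3.eta L L.ω₁ / L.ω₁) with hκ
  set z₀ : ℂ := a + b * τ with hz₀
  have hz₀im : z₀.im ≠ 0 := by
    have h1 : z₀.im = (b : ℝ) * τ.im := by
      rw [hz₀, Complex.add_im]
      simp
    rw [h1]
    exact mul_ne_zero (by exact_mod_cast hb) (ratio_im L)
  obtain ⟨h, hh⟩ := fam3_size hC hE hA hG hH hP hS L h2 h3 hτ a b l l' hl hl'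
  have hboff := off_irr (ratio_im L) (a := a) hb hirr
  have hnear := off_near hx0 hboff
  have hnear2 : ∀ᶠ y in 𝓝 x, 0 < (ε : ℝ) * y := by
    have hc : ContinuousAt (fun y : ℝ => (ε : ℝ) * y) x := by fun_prop
    exact hc.eventually_const_lt hεx
  obtain ⟨δ, hδ, hδ2⟩ := Metric.eventually_nhds_iff.1 (hnear.and hnear2)
  let e : Fin (5 + s) ≃ Fin 5 ⊕ Fin s := finSumFinEquiv.symm
  have hxτ : ((x : ℂ) * τ).im ≠ 0 := by
    rw [Complex.im_ofReal_mul]
    exact mul_ne_zero hx0 (ratio_im L)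
  have hxoff : Off z₀ ((x : ℂ) * τ) := off_of (ratio_im L) hboff
  obtain ⟨hap, hrel⟩ := hT q hq x hx hirr (5 + s) (fun i z => fam3 L κ z₀ l l' z (e i))
    (fun i => fam3_an hH hN L κ z₀ l l' (e i) hxτ hxoff)
    ⟨h, δ, hδ, fun Y hY u v hu hv hvY hlt i => by
      obtain ⟨g1, g2⟩ := hδ2 (y := (u / v : ℝ)) (by rwa [dist_comm, Real.dist_eq])
      have hv0 : (0 : ℝ) < v := by exact_mod_cast hv
      have hu0 : 0 < ε * u := by
        have g3 : 0 < ((ε : ℝ) * u) / v := by rwa [← mul_div_assoc] at g2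
        have g4 : 0 < (ε : ℝ) * u := by
          have := mul_pos g3 hv0
          rwa [div_mul_cancel₀ _ hv0.ne'] at this
        exact_mod_cast g4
      refine hh Y hY u v ?_ hu hv hvY g1 ε hε ?_ (e i)
      · rintro rfl
        simp at hu0
      · rcases hε with rfl | rfl <;> omega⟩
  refine ⟨fun i => by simpa using hap (e.symm i), ?_⟩
  -- integral relations
  have hint : ∀ P : MvPolynomial (Fin 5 ⊕ Fin s) ℤ,
      MvPolynomial.aeval (fam3 L κ z₀ l l' x) P = 0 → P = 0 := by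
    intro P hP0
    have hfreq := hrel (MvPolynomial.rename e.symm P) (by
      rw [MvPolynomial.aeval_rename]
      convert hP0 using 3
      funext i
      simp)
    have hfreq' : ∃ᶠ z in 𝓝[≠] (x : ℂ), MvPolynomial.aeval (fam3 L κ z₀ l l' z) P = 0 := by
      refine hfreq.mono fun z hz => ?_
      rw [MvPolynomial.aeval_rename] at hz
      convert hz using 3
      funext i
      simp
    -- the half plane
    obtain ⟨σ, hσ, hσx⟩ : ∃ σ : ℤ, (σ = 1 ∨ σ = -1) ∧ 0 < ((x : ℂ) * (σ * τ)).im := by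
      rcases lt_or_gt_of_ne hxτ with h | h
      · exact ⟨-1, Or.inr rfl, by simpa using h⟩
      · exact ⟨1, Or.inl rfl, by simpa using h⟩
    have hσ0 : (σ : ℂ) ≠ 0 := by rcases hσ with rfl | rfl <;> simp
    have hτ0 : τ ≠ 0 := by
      intro h0
      apply ratio_im L
      rw [← hτd, h0, Complex.zero_im]
    have hoffσ : ∀ z : ℂ, Off z₀ (z * (σ * τ)) ↔ Off z₀ (z * τ) := by
      intro z
      rcases hσ with rfl | rfl
      · simp
      · rw [← off_neg]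
        constructor
        · intro h; convert h using 1; push_cast; ring
        · intro h; convert h using 1; push_cast; ring
    let U : Set ℂ := {z | 0 < (z * (σ * τ)).im ∧ Off z₀ (z * (σ * τ))}
    have hU : IsPreconnected U := by
      have h1 := (hR z₀).image (fun w => w / (σ * τ)) (by fun_prop)
      convert h1 using 1
      ext z
      constructor
      · intro hz
        exact ⟨z * (σ * τ), hz, mul_div_cancel_right₀ _ (mul_ne_zero hσ0 hτ0)⟩
      · rintro ⟨w, hw, rfl⟩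
        change 0 < (w / (σ * τ) * (σ * τ)).im ∧ Off z₀ (w / (σ * τ) * (σ * τ))
        rw [div_mul_cancel₀ _ (mul_ne_zero hσ0 hτ0)]
        exact hw
    have hUan : AnalyticOnNhd ℂ (fun z => MvPolynomial.aeval (fam3 L κ z₀ l l' z) P) U := by
      intro z hz
      refine poly3_an hH hN L κ z₀ l l' P ?_ ((hoffσ z).1 hz.2)
      intro h0
      have hz' : 0 < (z * (σ * τ)).im := hz.1
      rw [show z * (σ * τ) = ((σ : ℝ) : ℂ) * (z * τ) by push_cast; ring, Complex.im_ofReal_mul,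
        hτd, h0, mul_zero] at hz'
      exact lt_irrefl _ hz'
    have hzero := hUan.eqOn_zero_of_preconnected_of_frequently_eq_zero hU
      ⟨hσx, (hoffσ x).2 hxoff⟩ hfreq'
    exact indep_fun3 hH hP hI L hτ κ hz₀im l l' hl hli P σ hσ fun z hz hz' => hzero ⟨hz, hz'⟩
  rw [algebraicIndependent_iff]
  intro P hP0
  obtain ⟨d, hd, P', hP'⟩ := clear_rat P
  have h0 := hint P' (by rw [hP', hP0, mul_zero])
  -- all values of `P` vanish
  refine MvPolynomial.funext fun r => ?_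
  have h5 := hP' (fun i => algebraMap ℚ ℂ (r i))
  rw [h0, map_zero] at h5
  have h6 : MvPolynomial.aeval (fun i => algebraMap ℚ ℂ (r i)) P = 0 :=
    ((mul_eq_zero.1 h5.symm).resolve_left (by exact_mod_cast hd))
  rw [show (fun i => algebraMap ℚ ℂ (r i)) = algebraMap ℚ ℂ ∘ r from rfl,
    MvPolynomial.aeval_algebraMap_apply] at h6
  have h7 := (map_eq_zero (algebraMap ℚ ℂ)).1 h6
  simpa [MvPolynomial.aeval_eq_eval] using h7

end Pool.Agent.P8H10.ET
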