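import Pool.Agent.R347.LW.Dich

/-!
# Project ET (elliptico-toric conjecture, MP_8da9ea_nt): packages on algebraic numbers of bounded size

`RB d N a` (`Pool/Agent/R347/LW/Quant.lean`): `a` is a zero of a nonzero integral polynomial of degree at most
`d` whose coefficients have absolute value at most `N`. `tow h q`: the `h`-fold iterate of `2 ^ ·`.
Every package is a `def S_X : Prop`; deliver `theorem x : S_X` (or `theorem x : S_Y → … → S_X`).
-/

set_option autoImplicit false

open Filter Topology Pool.Agent.R347.LW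

namespace Pool.Agent.P8H10.ET

/-- total degree and sum of the absolute values of the coefficients at most `N` -/
def Sz {σ : Type} (N : ℕ) (P : MvPolynomial σ ℤ) : Prop :=
  P.totalDegree ≤ N ∧ ∑ d ∈ P.support, |P.coeff d| ≤ N

/-- **CLOS** (about 120 lines). Values of integral polynomials at up to `N` algebraic numbers of size `N`.

Proof. `common_field` (`Pool/Agent/R347/LW/QuantE.lean`) with `ι = Fin n` gives a Galois field `L` of degree at
most `(N ^ 2 + 1) ^ (N ^ 2 + 1)`, `D ≤ N ^ N` with `D * a i` integral, and all conjugates are at most `N + 1`. So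
`z = P(a)` has `D ^ N * z` integral and conjugates at most `N * (N + 1) ^ N`. Apply `poly_prod`
(same file) with the linear polynomial `X - z`. The bound is a tower: the calculus `EL` of
`Pool/Agent/R347/LW/Tow.lean`, as in `root_tow` (`Pool/Agent/R347/LW/GRoot.lean`). The model is `RB_sum`, with
the calculus `Gd` (`Gd.mul`, `Gd.pow`, `Gd.prod`, …) and `exists_tow` in `Pool/Agent/P8H4/KM/Lio.lean`. -/
def S_CLOS : Prop := ∃ h : ℕ, ∀ N : ℕ, 2 ≤ N → ∀ (n : ℕ) (a : Fin n → ℂ) (P : MvPolynomial (Fin n) ℤ),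
  n ≤ N → (∀ i, RB N N (a i)) → Sz N P → RB (tow h N) (tow h N) (MvPolynomial.aeval a P)

/-- **ROOT** (about 100 lines). Zeros of polynomials whose coefficients are algebraic numbers of size `N`.

Proof. Let `n₁ ≤ n` be the largest index with `c n₁ ≠ 0`. `common_field` with `ι = Fin (n + 1)`, and
`poly_prod` with `n₁`; the bounds as in `root_tow` (`Pool/Agent/R347/LW/GRoot.lean`), which is the same for
a fixed number of terms. -/
def S_ROOT : Prop := ∃ h : ℕ, ∀ N : ℕ, 2 ≤ N → ∀ (n : ℕ) (c : ℕ → ℂ) (ρ : ℂ), n ≤ N →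
  (∀ j ≤ n, RB N N (c j)) → (∃ j ≤ n, c j ≠ 0) → ∑ j ∈ Finset.range (n + 1), c j * ρ ^ j = 0 →
  RB (tow h N) (tow h N) ρ

/-- **EXB** (about 60 lines). The numbers `exp ((u / v) l + l')`.

Proof. `α = exp l`, `β = exp l'` are algebraic, `RB m m α`, `RB m m α⁻¹`, `RB m m β` (`exists_RB` in
`Pool/Agent/P8H4/KM/Lio.lean`). `ρ = exp (l / v)` satisfies `ρ ^ v = α`, so `RB (m * v) m ρ` (`RB_root`, same file), the
same for `exp (-l / v)`. So `exp ((u / v) l + l') = ρ ^ |u| * β` or `(ρ⁻¹) ^ |u| * β`: `CLOS` for `n = 2`,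
`N = (m + 2) * (Y + 2)`; the towers: `EL`. -/
def S_EXB : Prop := ∀ l l' : ℂ, IsAlgebraic ℚ (Complex.exp l) → IsAlgebraic ℚ (Complex.exp l') →
  ∃ h : ℕ, ∀ Y : ℕ, 2 ≤ Y → ∀ (u : ℤ) (v : ℕ), |u| ≤ Y → 1 ≤ v → v ≤ Y →
    RB (tow h Y) (tow h Y) (Complex.exp ((u / v : ℂ) * l + l'))

/-- **TRA** (the transfer principle, about 150 lines). Let `x` be rationally approximable (`RAppr`) and
irrational, and let `f i` be analytic at `x` with algebraic values of bounded size at the rational numbers near `x`.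
Then the `f i x` are approximable (`Appr`), and a relation between them holds at infinitely many points near `x`.

Proof. `‖f i z - f i x‖ ≤ C ‖z - x‖` near `x`. By `RAppr` there is `h₀` such that for all `κ` and all large `k` there are
`u`, `v`, `1 ≤ v ≤ tow h₀ (q k)`, `|x - u / v| ≤ 1 / tow κ (q k)`, so `|u| ≤ (|x| + 1) v`; with
`Y = tow h₁ (q k)`, `h₁` a bit larger, the numbers `f i (u / v)` are `RB (tow h Y) (tow h Y)`, `tow h Y = tow (h + h₁) (q k)`
(`tow_tow`). This gives `Appr q (f i x)` (the constant `C`: see `inv_tow_small` in `Pool/Agent/R347/LW/Dich.lean`). If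
`P (f x) = 0`, then `z = u / v` satisfies `‖P (f z)‖ ≤ C' ‖z - x‖ ≤ C' / tow κ (q k)` and
`RB (tow h₂ (q k)) (tow h₂ (q k)) (P (f z))` by `CLOS`; so `P (f z) = 0` if `κ` is large, by `liou` in
`Pool/Agent/P8H4/KM/Lio.lean`. As `x` is irrational, `u / v ≠ x`; and `u / v → x`. (If `k ↦ q k` is bounded, there are
no irrational `RAppr` numbers; in fact `1 / tow κ (q k) → 0` is needed only for fixed `k` and `κ → ∞`: given
`ε`, choose `κ` with `1 / tow κ 2 < ε`.) -/
def S_TRA : Prop := ∀ q : ℕ → ℕ, (∀ i, 2 ≤ q i) → ∀ x : ℝ, RAppr q x → Irrational x →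
  ∀ (n : ℕ) (f : Fin n → ℂ → ℂ), (∀ i, AnalyticAt ℂ (f i) x) →
  (∃ (h : ℕ) (δ : ℝ), 0 < δ ∧ ∀ Y : ℕ, 2 ≤ Y → ∀ (u : ℤ) (v : ℕ), |u| ≤ Y → 1 ≤ v → v ≤ Y →
    |x - u / v| < δ → ∀ i, RB (tow h Y) (tow h Y) (f i (u / v : ℂ))) →
  (∀ i, Appr q (f i x)) ∧
  ∀ P : MvPolynomial (Fin n) ℤ, MvPolynomial.aeval (fun i => f i x) P = 0 →
    ∃ᶠ z in 𝓝[≠] (x : ℂ), MvPolynomial.aeval (fun i => f i z) P = 0

/-- **GS** (about 40 lines, from Baker's theorem). `2 π i N τ` is not a logarithm of an algebraic number.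

Proof. Baker's theorem (`Pool/Agent/H297R2/BakerThm.lean`, `baker`): logarithms of algebraic numbers which are linearly
independent over `ℚ` are linearly independent over the algebraic numbers. If `l` and `2 π i` are
dependent over `ℚ`, then `l = r * 2 π i` with `r` rational (`2 π i ≠ 0`), so `N τ = r` and `N = 0`, because
`τ` is not real. If they are independent, `1 * l - (N τ) * (2 π i) = 0` is a contradiction. (Import
`Pool.Agent.H297R2.BakerThm` in your file.) -/
def S_GS : Prop := ∀ τ : ℂ, IsAlgebraic ℚ τ → τ.im ≠ 0 → ∀ l : ℂ, IsAlgebraic ℚ (Complex.exp l) →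
  ∀ N : ℤ, l = 2 * Real.pi * Complex.I * N * τ → N = 0

end Pool.Agent.P8H10.ET
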