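import Pool.Agent.W245.EB.Psi
import Pool.Agent.P8H10.ET.StmA

/-!
# Project ET: packages on division functions

`psi L m z = sigma L (m z) / sigma L z ^ (m ^ 2)` (`Pool/Agent/W245/EB/Psi.lean`).
-/

set_option autoImplicit false

open Filter Topology Pool.Agent.R347.LW Pool.Agent.W245.EB
open scoped PeriodPair

namespace Pool.Agent.P8H10.ET

/-- **DIV1** (about 200 lines). The quantitative form of `Sm_psi` in `Pool/Agent/W245/EB/Psi.lean`: `psi m`, multiplied
by a power of `4` and a power of `℘'`, is an integral polynomial in `℘, ℘', g₂, g₃` of size at most `tow 3 (m + c)`.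

Proof. Copy the section `Sm` … `Sm_psi` with the predicate `SmB N f`: there are `e`, `a`, `P : MvPolynomial (Fin 4) ℤ`
with `e ≤ N`, `Sz N P` and `4 ^ a * f z * ℘' z ^ e = P (℘ z, ℘' z, g₂, g₃)` if `2 z ∉ L` (and `a ≤ N`, to bring sums to a
common factor). The sum of the absolute values of the coefficients is submultiplicative and
subadditive: `SmB N f`, `SmB M g` give `SmB (N * M + N + M + 4 ^ (N + M) * …)` for products and sums; crude bounds suffice, for example
`SmB (2 ^ (4 * (N + 4)))` for products and sums of functions of size `N` (for the sum: multiply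
by `℘' ^ e'`, `4 ^ a'`). The recursion `psi_odd`, `psi_even` expresses `psi m`, `m ≥ 5`, by sums and
products of ten factors `psi j`, `j < m`, so `S(m) ≤ G (S (m - 1))` where `S(m)` is the maximum of the sizes for `j ≤ m`
and `G` is a fixed *polynomial* if one is careful (`deg` additive, coefficients multiplicative:
`N ↦ (4 N) ^ C`, keep `a`, `e` and the degree in one bound `d(m) ≤ C * 8 ^ m` and the coefficients in another `H(m) ≤ 2 ^ (C * 8 ^ (2 m))`, say). So
keep two bounds: `SmB d H f` with `e, a, totalDegree ≤ d` and coefficients `≤ H`; product: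
`(d + d', H * H')`; sum: `(d + d', 4 ^ (d + d') * (H + H'))`, and `d(m) ≤ 8 ^ (m + c)`, `H(m) ≤ 2 ^ (100 ^ (m + c))`. These are at most
`tow 3 (m + c)`. -/
def S_DIV1 : Prop := ∃ c : ℕ, ∀ (L : PeriodPair) (m : ℕ), ∃ (e a : ℕ) (P : MvPolynomial (Fin 4) ℤ),
  Sz (tow 3 (m + c)) P ∧ ∀ z, 2 * z ∉ L.lattice →
    4 ^ a * psi L m z * ℘'[L] z ^ e = MvPolynomial.aeval ![℘[L] z, ℘'[L] z, L.g₂, L.g₃] P

/-- **DIV2** (`theorem div2 : S_DIV1 → S_DIV2`, about 150 lines). Elimination of `℘'`.

Proof. Let `P` be as in `DIV1`. The product `P (X, Y, g) P (X, -Y, g)` is even in `Y`, so it is a polynomial in `X`, `Y ^ 2`, `g`; substitute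
`Y ^ 2 = 4 X ^ 3 - g₂ X - g₃` to get `F`. (Alternatively: reduce `P = A + B Y` modulo the equation as in
`exists_AB` of `Psi.lean`, `F = A ^ 2 - B ^ 2 (4 X ^ 3 - g₂ X - g₃)`.) The degree of `F` is at most `6 deg P`, the sum of
the absolute values of the coefficients at most `6 ^ (2 deg P) H ^ 2`. If `m t ∈ L`, `2 t ∉ L`, then `psi m t = 0`
(`sigma_coe_eq_zero`), so `F (℘ t, g₂, g₃) = 0`. Nonvanishing at a generic point: as at the end of
`torsion_EL` (`exists_generic`). -/
def S_DIV2 : Prop := ∃ c : ℕ, ∀ (L : PeriodPair) (m : ℕ), 1 ≤ m → ∃ F : MvPolynomial (Fin 3) ℤ,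
  Sz (tow 3 (m + c)) F ∧
  (∀ t, (m : ℂ) * t ∈ L.lattice → 2 * t ∉ L.lattice →
    MvPolynomial.aeval ![℘[L] t, L.g₂, L.g₃] F = 0) ∧
  ∃ z : ℂ, MvPolynomial.aeval ![z, L.g₂, L.g₃] F ≠ 0

end Pool.Agent.P8H10.ET
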