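import Pool.Agent.P8H10.ET.StmD

/-!
# Project ET, second theorem: all lattices `ℤ ω₁ + ℤ (a ω₁ + b ω₂)` with rationally approximable `a`, `b`

The same packages for two real parameters (adaptations of `SUM`, `ALG`, `TRA`).
-/

set_option autoImplicit false

open Filter Topology Pool.Agent.R347.LW
open scoped PeriodPair

namespace Pool.Agent.P8H10.ET

/-- **SUM2** (`SUM` for the lattice `Ω' = ℤ ω₁ + ℤ w`, `w = (u₁ ω₁ + u ω₂) / v`). `Ω'` is the disjoint union of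
the classes `i ω₁ + j w + u Ω`, `0 ≤ i < u`, `0 ≤ j < v`: `u ω₂ = v w - u₁ ω₁ ∈ Ω'`, and
`a ω₁ + b w` with `b = j + v b'`, `v b' w = b' u₁ ω₁ + b' u ω₂`, `a + b' u₁ = i + u a'` is
`i ω₁ + j w + u (a' ω₁ + b' ω₂)`. -/
def S_SUM2 : Prop := ∀ (L L' : PeriodPair) (u₁ : ℤ) (u v : ℕ), 0 < u → 0 < v → L'.ω₁ = L.ω₁ →
  L'.ω₂ = (u₁ * L.ω₁ + u * L.ω₂) / v → ∀ r : ℕ, 2 < r → Even r →
    (u : ℂ) ^ r * L'.G r = ∑ i ∈ Finset.range u, ∑ j ∈ Finset.range v,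
      L.sumInvPow (((i : ℂ) * L.ω₁ + j * ((u₁ * L.ω₁ + u * L.ω₂) / v)) / u) r

/-- **ALG2** (`theorem alg2 : S_CLOS → S_ROOT → S_TOR → S_SUM2 → S_WP → S_ALG2`). As `ALG`; here
`t_ij = (i ω₁ + j w) / u`, `u v t_ij = i v ω₁ + j (u₁ ω₁ + u ω₂) ∈ Ω`, and `t_ij ∉ Ω` for `(i, j) ≠ (0, 0)`: its
coordinates are `(i + j u₁ / v) / u` and `j / v`. -/
def S_ALG2 : Prop := ∀ L : PeriodPair, IsAlgebraic ℚ L.g₂ → IsAlgebraic ℚ L.g₃ → ∃ h : ℕ, ∀ Y : ℕ,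
  2 ≤ Y → ∀ (u₁ : ℤ) (u v : ℕ) (L' : PeriodPair), |u₁| ≤ Y → 1 ≤ u → u ≤ Y → 1 ≤ v → v ≤ Y →
    L'.ω₁ = L.ω₁ → L'.ω₂ = (u₁ * L.ω₁ + u * L.ω₂) / v →
    RB (tow h Y) (tow h Y) (L'.G 4) ∧ RB (tow h Y) (tow h Y) (L'.G 6)

/-- **TRA2** (`theorem tra2 : S_CLOS → S_TRA2`). As `TRA`, at the complex number `a + b τ₀`, with the points
`(u₁ + u₂ τ₀) / v`: `a ≈ u / v'`, `b ≈ u' / v''`, common denominator `v = v' v''`. The points tend to `a + b τ₀`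
and are different from it (`τ₀` is not real, `a` or `b` is irrational). -/
def S_TRA2 : Prop := ∀ q : ℕ → ℕ, (∀ i, 2 ≤ q i) → ∀ a b : ℝ, RAppr q a → RAppr q b →
  (Irrational a ∨ Irrational b) → ∀ τ₀ : ℂ, τ₀.im ≠ 0 →
  ∀ (n : ℕ) (f : Fin n → ℂ → ℂ), (∀ i, AnalyticAt ℂ (f i) (a + b * τ₀)) →
  (∃ (h : ℕ) (δ : ℝ), 0 < δ ∧ ∀ Y : ℕ, 2 ≤ Y → ∀ (u₁ u₂ : ℤ) (v : ℕ), |u₁| ≤ Y → |u₂| ≤ Y → 1 ≤ v →
    v ≤ Y → |a - u₁ / v| < δ → |b - u₂ / v| < δ →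
    ∀ i, RB (tow h Y) (tow h Y) (f i ((u₁ + u₂ * τ₀) / v))) →
  (∀ i, Appr q (f i (a + b * τ₀))) ∧
  ∀ P : MvPolynomial (Fin n) ℤ, MvPolynomial.aeval (fun i => f i (a + b * τ₀)) P = 0 →
    ∃ᶠ z in 𝓝[≠] ((a : ℂ) + b * τ₀), MvPolynomial.aeval (fun i => f i z) P = 0

end Pool.Agent.P8H10.ET
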